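import Pool.Agent.MP_8e2770_co.H18.GD

/-!
Perturbation of an exact differential by terms of higher weight (Krull intersection).
-/

namespace Pool.Agent.MP_8e2770_co.H18

open Matrix MvPolynomial

noncomputable section

variable {K : Type} [Field K] {τ : Type} {J : Type}

/-- Weight condition for matrices of polynomials. -/
def MW (ω : J → ℤ) (w : ℤ) (R : ℤ → Prop) (M : Matrix J J (MvPolynomial τ K)) : Prop :=
  ∀ s t m, coeff m (M s t) ≠ 0 → R (ω s - ω t + w * m.degree)

/-- Weight condition for vectors of polynomials. -/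
def VW (ω : J → ℤ) (w : ℤ) (Q : ℤ → Prop) (z : J → MvPolynomial τ K) : Prop :=
  ∀ j m, coeff m (z j) ≠ 0 → Q (ω j + w * m.degree)

variable {ω : J → ℤ} {w : ℤ} {R R' Q Q' : ℤ → Prop} {M N : Matrix J J (MvPolynomial τ K)}
  {z y : J → MvPolynomial τ K}

lemma MW.add (h : MW ω w R M) (h' : MW ω w R N) : MW ω w R (M + N) := fun s t m hs => by
  by_cases h0 : coeff m (M s t) = 0
  · exact h' s t m fun h1 => hs (by rw [Matrix.add_apply, coeff_add, h0, h1, add_zero])
  · exact h s t m h0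

lemma MW.sum {ι : Type} (s : Finset ι) {f : ι → Matrix J J (MvPolynomial τ K)}
    (h : ∀ i ∈ s, MW ω w R (f i)) : MW ω w R (∑ i ∈ s, f i) :=
  Finset.sum_induction f (MW ω w R) (fun _ _ => MW.add) (fun _ _ _ h => (h rfl).elim) h

lemma MW.cst [Fintype J] [DecidableEq J] {M : Matrix J J K} (h : MB ω R M) :
    MW ω w R ((algebraMap K (MvPolynomial τ K)).mapMatrix M) := fun s t m hs => by
  classical
  rw [RingHom.mapMatrix_apply, Matrix.map_apply, algebraMap_eq, coeff_C] at hs
  split_ifs at hs with h0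
  · subst h0; simpa using h s t hs
  · exact (hs rfl).elim

lemma MW.X_smul (h : MW ω w R M) (v : τ) (hR : ∀ a, R a → R' (a + w)) :
    MW ω w R' ((X v : MvPolynomial τ K) • M) := fun s t m hs => by
  classical
  rw [Matrix.smul_apply, smul_eq_mul, coeff_X_mul'] at hs
  split_ifs at hs with h0
  · have h1 := hR _ (h s t _ hs)
    have h2 : m = m - Finsupp.single v 1 + Finsupp.single v 1 :=
      (tsub_add_cancel_of_le (Finsupp.single_le_iff.2
        (Nat.one_le_iff_ne_zero.2 (Finsupp.mem_support_iff.1 h0)))).symm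
    rw [h2, map_add, Finsupp.degree_single]
    push_cast
    rwa [mul_add, mul_one, ← add_assoc]
  · exact (hs rfl).elim

lemma VW.mono (h : VW ω w Q z) (hQ : ∀ a, Q a → Q' a) : VW ω w Q' z :=
  fun s m hs => hQ _ (h s m hs)

lemma VW.sub (h : VW ω w Q z) (h' : VW ω w Q y) : VW ω w Q (z - y) := fun s m hs => by
  by_cases h0 : coeff m (z s) = 0
  · exact h' s m fun h1 => hs (by rw [Pi.sub_apply, coeff_sub, h0, h1, sub_zero])
  · exact h s m h0

lemma VW.eq_zero (h : VW ω w Q z) (h' : VW ω w (fun a => ¬ Q a) z) : z = 0 := by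
  funext j
  ext m
  by_contra h0
  exact h' j m h0 (h j m h0)

lemma MW.mulVec [Fintype J] (h : MW ω w R M) (hz : VW ω w Q z)
    (hR : ∀ a b, R a → Q b → Q' (a + b)) : VW ω w Q' (M *ᵥ z) := fun s m hs => by
  classical
  rw [Matrix.mulVec, dotProduct, coeff_sum] at hs
  obtain ⟨j, -, hj⟩ := Finset.exists_ne_zero_of_sum_ne_zero hs
  rw [coeff_mul] at hj
  obtain ⟨x, hx, hj⟩ := Finset.exists_ne_zero_of_sum_ne_zero hj
  have := hR _ _ (h s j _ (left_ne_zero_of_mul hj)) (hz j _ (right_ne_zero_of_mul hj))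
  rw [← Finset.HasAntidiagonal.mem_antidiagonal.1 hx, map_add]
  push_cast
  rwa [show ω s - ω j + w * x.1.degree + (ω j + w * x.2.degree) =
    ω s + w * (x.1.degree + x.2.degree) by ring] at this

lemma exists_part (ω : J → ℤ) (w a : ℤ) (z : J → MvPolynomial τ K) :
    ∃ y, VW ω w (· = a) y ∧ VW ω w (· ≠ a) (z - y) ∧
      (∀ j m, coeff m ((z - y) j) ≠ 0 → coeff m (z j) ≠ 0) ∧ ∀ j, z j = 0 → y j = 0 := by
  classical
  let y : J → MvPolynomial τ K := fun j =>
    ∑ m ∈ (z j).support with ω j + w * m.degree = a, monomial m (coeff m (z j))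
  have hy : ∀ j m, coeff m (y j) = if ω j + w * m.degree = a then coeff m (z j) else 0 := by
    intro j m
    simp only [y, coeff_sum, coeff_monomial, Finset.sum_ite_eq', Finset.mem_filter,
      mem_support_iff]
    by_cases h : coeff m (z j) = 0 <;> simp [h]
  refine ⟨y, fun j m h => ?_, fun j m h h1 => h ?_, fun j m h h1 => h ?_, fun j h => ?_⟩
  · by_contra h1; exact h (by rw [hy, if_neg h1])
  · rw [Pi.sub_apply, coeff_sub, hy, if_pos h1, sub_self]
  · rw [Pi.sub_apply, coeff_sub, hy, h1]; simp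
  · simp [y, h]

theorem pert [Finite τ] [Fintype J] {l : J → ℤ} {p β d : ℤ} (hw : 0 < w)
    {D0 D1 : Matrix J J (MvPolynomial τ K)} (h0 : MW ω w (· = d) D0) (h1 : MW ω w (d < ·) D1)
    (l0 : MB l (· = p) D0) (l1 : MB l (· = p) D1) (hE : Ex l β D0)
    (hsq : (D0 + D1) * (D0 + D1) = 0) : Loc l β (D0 + D1) constantCoeff := by
  classical
  intro z hz hc
  obtain ⟨a0, ha0⟩ := Finite.exists_ge ω
  obtain ⟨a1, ha1⟩ := Finite.exists_le ω
  have key : ∀ k : ℕ, ∃ v, VW ω w (a0 + k ≤ ·) (z - (D0 + D1) *ᵥ v) ∧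
      VB l (· < β) (z - (D0 + D1) *ᵥ v) := by
    intro k
    induction k with
    | zero =>
      refine ⟨0, fun j m _ => ?_, by simpa using hz⟩
      have := ha0 j
      have : 0 ≤ w * m.degree := by positivity
      simp only [Nat.cast_zero]; omega
    | succ k ih =>
      obtain ⟨v, v1, v2⟩ := ih
      set y := z - (D0 + D1) *ᵥ v with hy
      have cy : (D0 + D1) *ᵥ y = 0 := by
        rw [hy, Matrix.mulVec_sub, hc, Matrix.mulVec_mulVec, hsq]; simp
      obtain ⟨y0, p1, p2, p3, p4⟩ := exists_part ω w (a0 + k) y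
      have p5 : VW ω w (a0 + k + 1 ≤ ·) (y - y0) := fun j m h => by
        have := p2 j m h
        have := v1 j m (p3 j m h)
        simp only at *; omega
      have p6 : VB l (· < β) y0 := fun j h => v2 j fun h1 => h (p4 j h1)
      have c0 : D0 *ᵥ y0 = 0 := by
        refine VW.eq_zero (Q := (· = d + (a0 + k))) (h0.mulVec p1 fun a b ha hb => by omega) ?_
        have : D0 *ᵥ y0 = (0 - D0 *ᵥ (y - y0)) - D1 *ᵥ y := by
          rw [← cy, Matrix.add_mulVec, Matrix.mulVec_sub D0 y y0]; abel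
        rw [this]
        exact (VW.sub (fun _ _ h => (h rfl).elim) (h0.mulVec p5 fun a b ha hb => by omega)).sub
          (h1.mulVec v1 fun a b ha hb => by omega)
      obtain ⟨u, hu⟩ := hE y0 p6 c0
      obtain ⟨u1, e1, e2, -⟩ := l0.solve (v := u) (Q := (· < β)) (by rwa [hu])
      obtain ⟨u2, r1, r2, -, r4⟩ := exists_part ω w (a0 + k - d) u1
      have r5 : D0 *ᵥ u2 = y0 := by
        have : D0 *ᵥ (u1 - u2) = 0 := by
          refine VW.eq_zero (Q := (· = a0 + k)) ?_ (h0.mulVec r2 fun a b ha hb => by omega)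
          rw [Matrix.mulVec_sub, e1, hu]
          exact p1.sub (h0.mulVec r1 fun a b ha hb => by omega)
        rw [Matrix.mulVec_sub, e1, hu, sub_eq_zero] at this
        exact this.symm
      have r6 : VB l (fun a => p + a < β) u2 := fun j h => e2 j fun h1 => h (r4 j h1)
      have r7 : z - (D0 + D1) *ᵥ (v + u2) = (y - y0) - D1 *ᵥ u2 := by
        rw [Matrix.mulVec_add, Matrix.add_mulVec D0 D1 u2, r5, hy]; abel
      refine ⟨v + u2, ?_, ?_⟩ <;> rw [r7]
      · exact (p5.mono fun a ha => by push_cast; omega).sub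
          (h1.mulVec r1 fun a b ha hb => by push_cast; omega)
      · exact (v2.sub p6).sub (l1.mulVec r6 fun a b ha hb => by omega)
  let B := LinearMap.range (D0 + D1).mulVecLin
  obtain ⟨⟨r, hr⟩, e⟩ := ((idealOfVars τ K).mem_iInf_smul_pow_eq_bot_iff (B.mkQ z)).1 (by
    rw [Submodule.mem_iInf]
    intro k
    obtain ⟨v, v1, -⟩ := key (a1 - a0 + w * k).toNat
    have e1 : B.mkQ z = B.mkQ (z - (D0 + D1) *ᵥ v) := by
      have : B.mkQ ((D0 + D1) *ᵥ v) = 0 := (Submodule.Quotient.mk_eq_zero B).2 ⟨v, rfl⟩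
      rw [map_sub, this, sub_zero]
    rw [e1, pi_eq_sum_univ' (z - (D0 + D1) *ᵥ v), map_sum]
    refine Submodule.sum_mem _ fun j _ => ?_
    rw [map_smul]
    refine Submodule.smul_mem_smul ((mem_pow_idealOfVars_iff _ _).2 fun m hm => ?_) trivial
    have k1 := v1 j m (mem_support_iff.1 hm)
    have k2 := ha1 j
    have k3 : w * k ≤ w * m.degree := by simp only at k1; omega
    exact_mod_cast le_of_mul_le_mul_left k3 hw)
  have e2 : B.mkQ ((1 - r) • z) = 0 := by rw [map_smul, sub_smul, one_smul, e, sub_self]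
  obtain ⟨v, hv⟩ := (Submodule.Quotient.mk_eq_zero B).1 e2
  refine ⟨1 - r, v, ?_, hv⟩
  have : constantCoeff r = 0 :=
    (mem_pow_idealOfVars_iff' 1 r).1 (by rwa [pow_one]) 0 (by simp)
  simp [this]

end

end Pool.Agent.MP_8e2770_co.H18
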