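import Pool.Agent.MP_8e2770_co.H18.Split
import Pool.Agent.MP_8e2770_co.H18.Pert

/-!
Local exactness at every point outside the origin.
-/

namespace Pool.Agent.MP_8e2770_co.H18

open Matrix Kronecker Function MvPolynomial

noncomputable section

lemma MB.kron2 {J J' S : Type} [CommRing S] {l : J → ℤ} {l' : J' → ℤ} {M : Matrix J J S}
    {M' : Matrix J' J' S} {L : J × J' → ℤ} {R R' R'' : ℤ → Prop} (α β : ℤ)
    (hL : ∀ a b, L (a, b) = α * l a + β * l' b) (h : MB l R M) (h' : MB l' R' M')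
    (hR : ∀ a b, R a → R' b → R'' (α * a + β * b)) : MB L R'' (M ⊗ₖ M') := by
  rintro ⟨a, b⟩ ⟨c, d⟩ hs
  rw [Matrix.kronecker_apply] at hs
  have := hR _ _ (h a c (left_ne_zero_of_mul hs)) (h' b d (right_ne_zero_of_mul hs))
  rw [hL, hL]
  rwa [show α * (l a - l c) + β * (l' b - l' d) =
    α * l a + β * l' b - (α * l c + β * l' d) by ring] at this

lemma MW.C_smul {K τ J : Type} [Field K] {ω : J → ℤ} {w : ℤ} {R : ℤ → Prop}
    {M : Matrix J J (MvPolynomial τ K)} (h : MW ω w R M) (a : K) :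
    MW ω w R (algebraMap K (MvPolynomial τ K) a • M) := fun s t m hs => h s t m fun h0 => hs (by
  rw [Matrix.smul_apply, smul_eq_mul, algebraMap_eq, coeff_C_mul, h0, mul_zero])

lemma GD_sub {S X Λ : Type} [CommRing S] {n : ℕ} [Fintype Λ] [DecidableEq Λ] (F : Fer S n Λ)
    (a b a' b' : Fin n → Matrix X X S) :
    GD F a b - GD F a' b' = ∑ k, ((a k - a' k) ⊗ₖ F.io k + (b k - b' k) ⊗ₖ F.ep k) := by
  rw [GD, GD, ← Finset.sum_sub_distrib]
  refine Finset.sum_congr rfl fun k _ => ?_
  ext ⟨s, x⟩ ⟨t, y⟩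
  simp only [Matrix.sub_apply, Matrix.add_apply, Matrix.kroneckerMap_apply]
  ring

variable {K : Type} [Field K] {n : ℕ} {Λ : Type} [Fintype Λ] [DecidableEq Λ] (F : Fer K n Λ)
  (p : ℕ)

/-- The exactness statement proved by induction on the number of forms. -/
def HH : Prop :=
  ∀ (E : Type) [Fintype E] [DecidableEq E] (c : E → Fin n → K) (β : ℤ) (τ : Type) [Finite τ]
    (ν : Fin n → τ), Injective ν → Hyp p c β →
      Ex (lv F p) β (DD F p c fun i => (X (ν i) : MvPolynomial τ K))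

variable {F p} [hp : Fact p.Prime] [CharP K p] {E : Type} [Fintype E] [DecidableEq E]
  {τ : Type} [Finite τ] {ν : Fin (n + 1) → τ} {β : ℤ}

open Classical in
theorem core (hF : HH F p) (hν : Injective ν) {c : E → Fin (n + 1) → K} (h : Hyp p c β) {a : K}
    (ha : a ≠ 0) : Loc (lv F.succ p) β (DD F.succ p c
      (Fin.cases (X (ν 0) + C a) fun i => (X (ν i.succ) : MvPolynomial τ K))) constantCoeff := by
  let f := algebraMap K (MvPolynomial τ K)
  have hE := split_exact F p c ha _
    (hF _ _ _ τ (fun i => ν i.succ) (hν.comp (Fin.succ_injective n)) (h.tail p hp.out.one_le))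
  set D0 := DD F.succ p (cut c) (Fin.cases (algebraMap K (MvPolynomial τ K) a)
    fun i => (X (ν i.succ) : MvPolynomial τ K)) with hD0
  set D := DD F.succ p c (Fin.cases (X (ν 0) + C a)
    fun i => (X (ν i.succ) : MvPolynomial τ K)) with hD
  let A : Finset E := Finset.univ.filter fun e => c e 0 ≠ 0
  let ω1 : Bool × Λ → ℤ := fun y => (p - 2) * cb y.1 + p * F.cd y.2
  let ω : (E → Bool) × (Bool × Λ) → ℤ := fun x => 2 * dg A x.1 + 1 * ω1 x.2
  have p2 : (2 : ℤ) ≤ p := by exact_mod_cast hp.out.two_le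
  have pc : ((p - 1 : ℕ) : ℤ) = p - 1 := Nat.cast_sub hp.out.one_le
  have i0 : MB ω1 (· = p - 2) (F.succ.io 0) :=
    (nI_deg K).kron2 _ _ (fun _ _ => rfl) F.ds fun a b ha hb => by rw [ha, hb]; ring
  have e0 : MB ω1 (· = -(p - 2)) (F.succ.ep 0) :=
    (nE_deg K).kron2 _ _ (fun _ _ => rfl) F.ds fun a b ha hb => by rw [ha, hb]; ring
  have i1 : ∀ i : Fin n, MB ω1 (· = p) (F.succ.io i.succ) := fun i =>
    (MB.one (R := (· = 0)) (l := cb) rfl).kron2 _ _ (fun _ _ => rfl) (F.di i)
      fun a b ha hb => by rw [ha, hb]; ring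
  have e1 : ∀ i : Fin n, MB ω1 (· = -p) (F.succ.ep i.succ) := fun i =>
    (MB.one (R := (· = 0)) (l := cb) rfl).kron2 _ _ (fun _ _ => rfl) (F.de i)
      fun a b ha hb => by rw [ha, hb]; ring
  have kW : ∀ {M : Matrix (E → Bool) (E → Bool) K} {N : Matrix (Bool × Λ) (Bool × Λ) K}
      {R R' : ℤ → Prop} {b : ℤ}, MB (dg A) R M → MB ω1 (· = b) N → (∀ x, R x → R' (2 * x + b)) →
      MW ω (2 * p) R' (f.mapMatrix M ⊗ₖ f.mapMatrix N) := by
    intro M N R R' b hM hN hR
    rw [RingHom.mapMatrix_apply, RingHom.mapMatrix_apply, ← kron_map]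
    exact MW.cst (hM.kron2 2 1 (fun _ _ => rfl) hN fun u v hu hv => by
      rw [hv, one_mul]; exact hR u hu)
  have u0 : MB (dg A) (· = 1) (UU Finset.univ fun e => c e 0) :=
    UU_deg _ fun e _ he => if_pos (by simpa [A] using he)
  have u1 : ∀ i : Fin n, MB (dg A) (· = 0) (UU Finset.univ fun e => cut c e i.succ) := fun i =>
    UU_deg _ fun e _ he => if_neg fun h1 => he (if_pos (by simpa [A] using h1))
  have u2 : ∀ i, MB (dg A) (0 ≤ ·) (UU Finset.univ fun e => c e i) := fun i =>
    UU_deg _ fun e _ _ => by split_ifs <;> simp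
  have u3 : ∀ i : Fin n, MB (dg A) (0 < ·)
      ((UU Finset.univ fun e => c e i.succ) - UU Finset.univ fun e => cut c e i.succ) := fun i => by
    have : ((UU Finset.univ fun e => c e i.succ) - UU Finset.univ fun e => cut c e i.succ) =
        UU Finset.univ fun e => c e i.succ - cut c e i.succ := by
      simp only [UU, sub_smul, Finset.sum_sub_distrib]
    rw [this]
    refine UU_deg _ fun e _ he => ?_
    rw [if_pos]
    · exact one_pos
    · by_contra h1
      exact he (sub_eq_zero.2 (if_neg (by simpa [A] using h1)).symm)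
  have w0 : MW ω (2 * p) (· = p) D0 := by
    rw [hD0, DD, GD]
    refine MW.sum _ fun k _ => ?_
    rw [Matrix.smul_kronecker, Ur, ← map_pow]
    refine Fin.cases (MW.add ?_ ?_) (fun i => MW.add ?_ ?_) k
    · exact kW u0 i0 fun x hx => by omega
    · exact (kW (u0.pow (p - 1)) e0 fun x hx => by omega).C_smul a
    · exact kW (u1 i) (i1 i) fun x hx => by omega
    · exact (kW (R' := (· = -p)) ((u1 i).pow (p - 1)) (e1 i) fun x hx => by omega).X_smul _
        fun x hx => by omega
  have w1 : MW ω (2 * p) (p < ·) (D - D0) := by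
    rw [hD0, hD, DD, DD, GD_sub]
    refine MW.sum _ fun k _ => ?_
    refine Fin.cases (MW.add ?_ ?_) (fun i => MW.add ?_ ?_) k
    · rw [show Ur (MvPolynomial τ K) c 0 - Ur (MvPolynomial τ K) (cut c) 0 = 0 from sub_self _, Matrix.zero_kronecker]
      exact fun _ _ _ h => (h rfl).elim
    · rw [show Ur (MvPolynomial τ K) (cut c) 0 = Ur (MvPolynomial τ K) c 0 from rfl, Fin.cases_zero, Fin.cases_zero, ← sub_smul,
        algebraMap_eq, add_sub_cancel_right, Matrix.smul_kronecker, Ur, ← map_pow]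
      exact (kW (R' := (· = p)) (u0.pow (p - 1)) e0 fun x hx => by omega).X_smul _
        fun x hx => by omega
    · rw [Ur, Ur, ← map_sub]
      exact kW (u3 i) (i1 i) fun x hx => by omega
    · rw [Fin.cases_succ, Fin.cases_succ, ← smul_sub, Matrix.smul_kronecker, Ur, Ur, ← map_pow,
        ← map_pow, ← map_sub]
      exact (kW (R' := (-p < ·)) ((u2 _).pow_sub ((u1 i).mono fun a ha => ha.ge) (u3 i) (p - 1))
        (e1 i) fun x hx => by omega).X_smul _ fun x hx => by omega
  have := pert (by omega) w0 w1 (DD_deg _ p _ _) ((DD_deg _ p _ _).sub (DD_deg _ p _ _)) hE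
    (by rw [add_sub_cancel]; exact DD_sq _ p _ _)
  rwa [add_sub_cancel] at this

theorem loc_base (hF : HH F p) (hν : Injective ν) {c : E → Fin (n + 1) → K} (h : Hyp p c β)
    {a : τ → K} (h0 : a (ν 0) ≠ 0) (h1 : ∀ i : Fin n, a (ν i.succ) = 0) :
    Loc (lv F.succ p) β (DD F.succ p c fun i => (X (ν i) : MvPolynomial τ K)) (MvPolynomial.eval a) := by
  let θ : MvPolynomial τ K →ₐ[K] MvPolynomial τ K := aeval fun t => X t - C (a t)
  let θ' : MvPolynomial τ K →ₐ[K] MvPolynomial τ K := aeval fun t => X t + C (a t)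
  have e1 : θ.comp θ' = AlgHom.id _ _ := algHom_ext fun t => by simp [θ, θ']
  have e2 : (MvPolynomial.eval a).comp (θ : MvPolynomial τ K →+* MvPolynomial τ K) = constantCoeff :=
    ringHom_ext (fun r => by simp [θ]) fun t => by simp [θ]
  refine Loc.auto θ θ' ?_ (fun x => AlgHom.congr_fun e1 x) (DD_map _ p θ' _ _)
  rw [← RingHom.coe_comp, e2]
  have e3 : (θ' ∘ fun i => (X (ν i) : MvPolynomial τ K)) =
      Fin.cases (X (ν 0) + C (a (ν 0))) fun i => (X (ν i.succ) : MvPolynomial τ K) := by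
    funext i
    refine Fin.cases ?_ (fun i => ?_) i <;> simp [θ', h1]
  rw [e3]
  exact core hF hν h h0

omit [Finite τ] in
open Classical in
theorem loc_move {m : ℕ} {G : Fer K m Λ} {ν : Fin m → τ} (hν : Injective ν) {c : E → Fin m → K}
    {a : τ → K} {i j : Fin m} (hij : i ≠ j) (γ : K)
    (h : Loc (lv G p) β (DD G p (mv c i j γ) fun i => (X (ν i) : MvPolynomial τ K))
      (MvPolynomial.eval (update a (ν i) (a (ν i) + γ ^ p * a (ν j))))) :
    Loc (lv G p) β (DD G p c fun i => (X (ν i) : MvPolynomial τ K)) (MvPolynomial.eval a) := by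
  let θ : K → MvPolynomial τ K →ₐ[K] MvPolynomial τ K := fun g =>
    aeval (update X (ν i) (X (ν i) + C g * X (ν j)))
  have hne : ν j ≠ ν i := fun h => hij (hν h).symm
  have t1 : ∀ g, θ g (X (ν i)) = X (ν i) + C g * X (ν j) := fun g => by simp [θ]
  have t2 : ∀ g t, t ≠ ν i → θ g (X t) = X t := fun g t ht => by simp [θ, ht]
  have t3 : ∀ g r, θ g (C r) = C r := fun g r => by simp [θ]
  have e1 : (θ (γ ^ p)).comp (θ (-γ ^ p)) = AlgHom.id _ _ := algHom_ext fun t => by
    by_cases ht : t = ν i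
    · rw [ht, AlgHom.comp_apply, t1, map_add, map_mul, t1, t2 _ _ hne, t3]; simp
    · rw [AlgHom.comp_apply, t2 _ _ ht, t2 _ _ ht]; rfl
  have e2 : (MvPolynomial.eval a).comp (θ (γ ^ p) : MvPolynomial τ K →+* MvPolynomial τ K) =
      MvPolynomial.eval (update a (ν i) (a (ν i) + γ ^ p * a (ν j))) :=
    ringHom_ext (fun r => by simp [t3]) fun t => by
      by_cases ht : t = ν i
      · simp [ht, t1]
      · simp [ht, t2]
  refine Loc.move G p hij γ
    (Loc.auto (θ (γ ^ p)) (θ (-γ ^ p)) ?_ (fun x => AlgHom.congr_fun e1 x) (DD_map _ p _ _ _))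
  rw [← RingHom.coe_comp, e2]
  have e3 : (θ (-γ ^ p) ∘ update (fun i => (X (ν i) : MvPolynomial τ K)) i
      (X (ν i) + algebraMap K (MvPolynomial τ K) γ ^ p * X (ν j))) = fun i => X (ν i) := by
    funext k
    by_cases hk : k = i
    · rw [Function.comp_apply, hk, update_self, algebraMap_eq, ← map_pow, map_add, map_mul, t1,
        t2 _ _ hne, t3]
      simp
    · rw [Function.comp_apply, update_of_ne hk, t2 _ _ fun h => hk (hν h)]
  rw [e3]
  exact h

open Classical in
theorem loc_point [IsAlgClosed K] (hF : HH F p) (hν : Injective ν) {c : E → Fin (n + 1) → K}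
    (h : Hyp p c β) {a : τ → K} {k : Fin (n + 1)} (hk : a (ν k) ≠ 0) :
    Loc (lv F.succ p) β (DD F.succ p c fun i => (X (ν i) : MvPolynomial τ K)) (MvPolynomial.eval a) := by
  have key : ∀ (s : Finset (Fin n)) (c : E → Fin (n + 1) → K) (a : τ → K), Hyp p c β →
      a (ν 0) ≠ 0 → (∀ i : Fin n, i ∉ s → a (ν i.succ) = 0) →
      Loc (lv F.succ p) β (DD F.succ p c fun i => (X (ν i) : MvPolynomial τ K)) (MvPolynomial.eval a) := by
    intro s
    induction s using Finset.induction_on with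
    | empty => exact fun c a h h0 h1 => loc_base hF hν h h0 fun i => h1 i (Finset.notMem_empty i)
    | insert i s _ ih =>
      intro c a h h0 h1
      obtain ⟨γ, hγ⟩ := IsAlgClosed.exists_pow_nat_eq (-a (ν i.succ) / a (ν 0)) hp.out.pos
      have hi := Fin.succ_ne_zero i
      refine loc_move hν hi γ (ih _ _ (h.mv p hi γ) ?_ fun r hr => ?_)
      · rwa [update_of_ne fun h => hi (hν h).symm]
      · by_cases hri : r = i
        · rw [hri, update_self, hγ, div_mul_cancel₀ _ h0, add_neg_cancel]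
        · rw [update_of_ne fun h => hri (Fin.succ_injective _ (hν h))]
          exact h1 r (by simp [hri, hr])
  by_cases h0 : a (ν 0) = 0
  · have hk0 : (0 : Fin (n + 1)) ≠ k := fun h => hk (h ▸ h0)
    refine loc_move hν hk0 1 (key Finset.univ _ _ (h.mv p hk0 1) ?_ (by simp))
    simpa [h0] using hk
  · exact key Finset.univ c a h h0 (by simp)

theorem torsion [IsAlgClosed K] (hF : HH F p) (hν : Injective ν) {c : E → Fin (n + 1) → K}
    (h : Hyp p c β) (z : (E → Bool) × (Bool × Λ) → MvPolynomial τ K)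
    (h1 : VB (lv F.succ p) (· < β) z)
    (h2 : DD F.succ p c (fun i => (X (ν i) : MvPolynomial τ K)) *ᵥ z = 0) (k : Fin (n + 1)) :
    ∃ (N : ℕ) (v : _), DD F.succ p c (fun i => (X (ν i) : MvPolynomial τ K)) *ᵥ v =
      (X (ν k) : MvPolynomial τ K) ^ N • z := by
  let I : Ideal (MvPolynomial τ K) := (LinearMap.range (DD F.succ p c
    fun i => (X (ν i) : MvPolynomial τ K)).mulVecLin).comap (LinearMap.toSpanSingleton _ _ z)
  have : X (ν k) ∈ I.radical := by
    rw [← vanishingIdeal_zeroLocus_eq_radical (K := K), mem_vanishingIdeal_iff]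
    intro a ha
    by_contra h0
    obtain ⟨f, v, k1, k2⟩ := loc_point hF hν h (k := k) (a := a) (by simpa using h0) z h1 h2
    exact k1 (by simpa [aeval_eq_eval] using ha f ⟨v, k2⟩)
  obtain ⟨N, v, hv⟩ := this
  exact ⟨N, v, hv⟩

end

end Pool.Agent.MP_8e2770_co.H18
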