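import Pool.Agent.MP_8e2770_co.H18.Grade

/-!
Multiplication operators on the algebra with square-zero generators; the one-variable lemma.
-/

namespace Pool.Agent.MP_8e2770_co.H18

open Matrix Function

noncomputable section

variable {K : Type} [Field K] {E : Type} [Fintype E] [DecidableEq E]

variable (K) in
/-- Multiplication by the generator `x_e`. -/
def XX (e : E) : Matrix (E → Bool) (E → Bool) K :=
  Matrix.of fun s t => if s e = true ∧ t = update s e false then 1 else 0

lemma XX_mulVec (e : E) (f : (E → Bool) → K) (s : E → Bool) :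
    (XX K e *ᵥ f) s = if s e = true then f (update s e false) else 0 := by
  by_cases h : s e = true <;> simp [XX, Matrix.mulVec, dotProduct, h]

lemma mat_ext {J : Type} [Fintype J] [DecidableEq J] {M N : Matrix J J K}
    (h : ∀ f, M *ᵥ f = N *ᵥ f) : M = N :=
  Matrix.toLin'.injective (LinearMap.ext h)

lemma XX_sq (e : E) : XX K e * XX K e = 0 := mat_ext fun f => by
  funext s
  rw [← Matrix.mulVec_mulVec, XX_mulVec, XX_mulVec]
  simp

lemma XX_comm (e e' : E) : Commute (XX K e) (XX K e') := mat_ext fun f => by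
  by_cases h : e = e'
  · rw [h]
  funext s
  simp only [← Matrix.mulVec_mulVec, XX_mulVec, update_of_ne h, update_of_ne (Ne.symm h),
    update_comm h]
  split_ifs <;> rfl

/-- Degree in the variables of `A`. -/
def dg (A : Finset E) (s : E → Bool) : ℤ := ∑ e ∈ A, if s e = true then 1 else 0

omit [Fintype E] [DecidableEq E] in
lemma dg_nonneg (A : Finset E) (s : E → Bool) : 0 ≤ dg A s :=
  Finset.sum_nonneg fun _ _ => by split_ifs <;> simp

omit [Fintype E] in
lemma dg_update_not {A : Finset E} {e : E} (h : e ∉ A) (s : E → Bool) (b : Bool) :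
    dg A (update s e b) = dg A s :=
  Finset.sum_congr rfl fun a ha => by rw [update_of_ne (ne_of_mem_of_not_mem ha h)]

lemma XX_deg (A : Finset E) (e : E) : MB (dg A) (· = if e ∈ A then 1 else 0) (XX K e) := by
  intro s t h
  obtain ⟨h1, rfl⟩ : s e = true ∧ t = update s e false := by
    by_contra h0; exact h (if_neg h0)
  by_cases he : e ∈ A
  · have k1 := dg_update_not (A.notMem_erase e) s false
    simp only [dg] at k1 ⊢
    rw [← Finset.add_sum_erase _ _ he, ← Finset.add_sum_erase A _ he, k1]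
    simp [h1, he]
  · rw [dg_update_not he, sub_self, if_neg he]

/-- Multiplication by the linear form with coefficients `c` on `A`. -/
def UU (A : Finset E) (c : E → K) : Matrix (E → Bool) (E → Bool) K := ∑ e ∈ A, c e • XX K e

lemma UU_deg {A B : Finset E} {R : ℤ → Prop} (c : E → K)
    (h : ∀ e ∈ B, c e ≠ 0 → R (if e ∈ A then 1 else 0)) : MB (dg A) R (UU B c) :=
  MB.sum _ fun e he => by
    by_cases h0 : c e = 0
    · rw [h0, zero_smul]; exact MB.zero
    · exact ((XX_deg A e).mono fun a ha => by rw [ha]; exact h e he h0).smul _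

lemma UU_comm_XX (A : Finset E) (c : E → K) (e : E) : Commute (UU A c) (XX K e) :=
  Commute.sum_left _ _ _ fun a _ => (XX_comm a e).smul_left _

lemma UU_comm (A B : Finset E) (c c' : E → K) : Commute (UU A c) (UU B c') :=
  Commute.sum_right _ _ _ fun a _ => (UU_comm_XX A c a).smul_right _

lemma add_pow_sq {T : Type} [Ring T] {a x : T} (h : Commute a x) (hx : x * x = 0) (k : ℕ) :
    (a + x) ^ (k + 1) = a ^ (k + 1) + (k + 1) • (x * a ^ k) := by
  induction k with
  | zero => simp
  | succ k ih =>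
    have h1 : x * a ^ k * x = 0 := by rw [mul_assoc, (h.pow_left k).eq, ← mul_assoc, hx, zero_mul]
    rw [pow_succ, ih, add_mul, mul_add, mul_add, smul_mul_assoc, smul_mul_assoc, h1, smul_zero,
      mul_assoc, ← pow_succ, ← pow_succ, (h.pow_left (k + 1)).eq, add_smul (k + 1) 1, one_smul]
    abel

lemma smul_XX_sq (a : K) (e : E) : (a • XX K e) * (a • XX K e) = 0 := by
  rw [smul_mul_smul_comm, XX_sq, smul_zero]

lemma UU_pow_card (A : Finset E) (c : E → K) : UU A c ^ (A.card + 1) = 0 := by
  induction A using Finset.induction_on with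
  | empty => simp [UU]
  | insert e A he ih =>
    rw [UU, Finset.sum_insert he, add_comm, Finset.card_insert_of_notMem he, ← UU,
      add_pow_sq ((UU_comm_XX A c e).smul_right _) (smul_XX_sq _ _), pow_succ, ih]
    simp

variable {p : ℕ} [Fact p.Prime] [CharP K p]

lemma UU_pow_char (A : Finset E) (c : E → K) : UU A c ^ p = 0 := by
  obtain ⟨k, rfl⟩ : ∃ k, p = k + 1 := ⟨p - 1, by have := (Fact.out : p.Prime).pos; omega⟩
  induction A using Finset.induction_on with
  | empty => simp [UU]
  | insert e A he ih =>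
    rw [UU, Finset.sum_insert he, add_comm, ← UU,
      add_pow_sq ((UU_comm_XX A c e).smul_right _) (smul_XX_sq _ _), ih,
      ← Nat.cast_smul_eq_nsmul K, CharP.cast_eq_zero K (k + 1), zero_smul, add_zero]

lemma split_zero {e : E} {a : K} (ha : a ≠ 0) {y y' : (E → Bool) → K}
    (hy : VB (dg {e}) (· = 0) y) (hy' : VB (dg {e}) (· = 0) y')
    (h : y + (a • XX K e) *ᵥ y' = 0) : y = 0 ∧ y' = 0 := by
  have h1 : VB (dg {e}) (· = 1) ((a • XX K e) *ᵥ y') :=
    ((XX_deg {e} e).smul a).mulVec hy' fun u v hu hv => by simp at hu; omega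
  have h2 : y = 0 := hy.eq_zero (by
    rw [eq_neg_of_add_eq_zero_left h]; exact h1.neg.mono fun u hu => by omega)
  refine ⟨h2, funext fun s => ?_⟩
  by_contra h0
  have h3 : s e = false := by simpa [dg] using hy' s h0
  have h4 := congrFun h (update s e true)
  rw [h2, zero_add, Matrix.smul_mulVec, Pi.smul_apply, XX_mulVec] at h4
  rw [update_idem, ← h3, update_eq_self] at h4
  simp [ha] at h4
  exact h0 h4

lemma one_var (c : E → K) (A : Finset E) (hc : ∀ e ∈ A, c e ≠ 0) :
    ∀ j ≤ p, ∀ f, VB (dg A) (fun d => 2 * d + j ≤ A.card) f → (UU A c ^ j) *ᵥ f = 0 →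
      ∃ g, (UU A c ^ (p - j)) *ᵥ g = f := by
  induction A using Finset.induction_on with
  | empty =>
    intro j _ f hf h
    refine ⟨0, ?_⟩
    rcases Nat.eq_zero_or_pos j with rfl | hj
    · simpa using h.symm
    · rw [Matrix.mulVec_zero]
      funext s
      by_contra h0
      have := hf s (Ne.symm h0)
      simp [dg] at this
      omega
  | insert e A he ih =>
    intro j hj f hf h
    rcases Nat.eq_zero_or_pos j with rfl | hj0
    · exact ⟨0, by simpa using h.symm⟩
    rcases hj.eq_or_lt with rfl | hj1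
    · exact ⟨f, by simp⟩
    obtain ⟨i, rfl⟩ : ∃ i, j = i + 1 := ⟨j - 1, by omega⟩
    obtain ⟨k, hk⟩ : ∃ k, p = i + 1 + (k + 1) := ⟨p - (i + 1) - 1, by omega⟩
    have hce := hc e (Finset.mem_insert_self _ _)
    have ih := ih fun a ha => hc a (Finset.mem_insert_of_mem ha)
    have hU : UU (insert e A) c = UU A c + c e • XX K e := by
      rw [UU, Finset.sum_insert he, add_comm, ← UU]
    have hcm : Commute (UU A c) (c e • XX K e) := (UU_comm_XX A c e).smul_right _
    have hxx := smul_XX_sq (c e) e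
    rw [hU, add_pow_sq hcm hxx] at h
    rw [hU, show p - (i + 1) = k + 1 by omega, add_pow_sq hcm hxx]
    have hdg : ∀ s, dg (insert e A) s = (if s e = true then 1 else 0) + dg A s := fun s =>
      Finset.sum_insert he
    rw [Finset.card_insert_of_notMem he] at hf
    have hU0 : MB (dg {e}) (· = 0) (UU A c) := UU_deg c fun a ha _ =>
      if_neg fun h1 => he (by rw [← Finset.mem_singleton.1 h1]; exact ha)
    have hU1 : MB (dg A) (· = 1) (UU A c) := UU_deg c fun a ha _ => if_pos ha
    set U := UU A c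
    set x := c e • XX K e with hx
    let a : (E → Bool) → K := fun s => if s e = true then 0 else f s
    let b : (E → Bool) → K := fun s => if s e = true then 0 else (c e)⁻¹ * f (update s e true)
    have hab : f = a + x *ᵥ b := by
      funext s
      rw [hx, Matrix.smul_mulVec, Pi.add_apply, Pi.smul_apply, XX_mulVec]
      by_cases h1 : s e = true
      · simp only [a, b, h1, if_true, update_self, update_idem, zero_add]
        rw [← h1, update_eq_self]
        simp [hce, h1]
      · simp [a, h1]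
    have a0 : VB (dg {e}) (· = 0) a := fun s hs => by
      have h1 : ¬ s e = true := fun h1 => hs (if_pos h1)
      simp [dg, h1]
    have b0 : VB (dg {e}) (· = 0) b := fun s hs => by
      have h1 : ¬ s e = true := fun h1 => hs (if_pos h1)
      simp [dg, h1]
    have a1 : VB (dg A) (fun d => 2 * d + i ≤ A.card) a := fun s hs => by
      have h1 : ¬ s e = true := fun h1 => hs (if_pos h1)
      have := hf s fun h2 => hs (by simp [a, h2])
      rw [hdg, if_neg h1] at this
      push_cast at this ⊢
      omega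
    have b1 : VB (dg A) (fun d => 2 * d + (i + 2 : ℕ) ≤ A.card) b := fun s hs => by
      have := hf (update s e true) fun h2 => hs (by simp [b, h2])
      rw [hdg, dg_update_not he, update_self, if_pos rfl] at this
      push_cast at this ⊢
      omega
    have cx : ∀ (m : ℕ) y, U ^ m *ᵥ (x *ᵥ y) = x *ᵥ (U ^ m *ᵥ y) := fun m y => by
      rw [Matrix.mulVec_mulVec, Matrix.mulVec_mulVec, (hcm.pow_left m).eq]
    have xx : ∀ y, x *ᵥ (x *ᵥ y) = 0 := fun y => by
      rw [Matrix.mulVec_mulVec, hxx, Matrix.zero_mulVec]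
    have sc : ∀ (m : ℕ) y, U ^ m *ᵥ (U *ᵥ y) = U ^ (m + 1) *ᵥ y := fun m y => by
      rw [Matrix.mulVec_mulVec, pow_succ]
    have sc' : ∀ (m : ℕ) y, U *ᵥ (U ^ m *ᵥ y) = U ^ (m + 1) *ᵥ y := fun m y => by
      rw [Matrix.mulVec_mulVec, pow_succ']
    set cc := ((i + 1 : ℕ) : K) • a + U *ᵥ b with hcc
    have c0 : VB (dg {e}) (· = 0) cc :=
      (a0.smul _).add (hU0.mulVec b0 fun u v hu hv => by omega)
    have pw : ∀ (m : ℕ) y, VB (dg {e}) (· = 0) y → VB (dg {e}) (· = 0) (U ^ m *ᵥ y) :=
      fun m y hy => (hU0.pow m).mulVec hy fun u v hu hv => by omega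
    obtain ⟨z1, z2⟩ : U ^ (i + 1) *ᵥ a = 0 ∧ U ^ i *ᵥ cc = 0 := by
      refine split_zero hce (pw _ _ a0) (pw _ _ c0) ?_
      rw [← h, hab, ← Nat.cast_smul_eq_nsmul K, hcc]
      simp only [Matrix.add_mulVec, Matrix.mulVec_add, Matrix.smul_mulVec, Matrix.mulVec_smul,
        ← Matrix.mulVec_mulVec, cx, xx, sc, ← hx, smul_zero, add_zero]
      abel
    obtain ⟨c', hc'⟩ := ih i (by omega) cc
      ((a1.smul _).add (hU1.mulVec b1 fun u v hu hv => by push_cast at hv; omega)) z2
    obtain ⟨b', hb'⟩ := ih (i + 2) (by omega) b b1 (by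
      have : U *ᵥ b = cc - ((i + 1 : ℕ) : K) • a := by rw [hcc]; abel
      rw [← sc, this, Matrix.mulVec_sub, Matrix.mulVec_smul, z1, ← sc', z2]
      simp)
    rw [show p - i = k + 1 + 1 by omega] at hc'
    rw [show p - (i + 2) = k by omega] at hb'
    have n0 : ((i + 1 : ℕ) : K) ≠ 0 := fun h0 =>
      absurd (Nat.le_of_dvd (by omega) ((CharP.cast_eq_zero_iff K p _).1 h0)) (by omega)
    have n1 : ((k + 1 : ℕ) : K) = -((i + 1 : ℕ) : K) := by
      rw [eq_neg_iff_add_eq_zero, ← Nat.cast_add, add_comm, ← hk, CharP.cast_eq_zero]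
    refine ⟨((i + 1 : ℕ) : K)⁻¹ • (U *ᵥ c' - b') + x *ᵥ c', ?_⟩
    rw [← Nat.cast_smul_eq_nsmul K, n1, hab]
    simp only [Matrix.add_mulVec, Matrix.mulVec_add, Matrix.smul_mulVec, Matrix.mulVec_smul,
      Matrix.mulVec_sub, ← Matrix.mulVec_mulVec, cx, xx, sc, smul_zero, add_zero, hc', hb']
    rw [← sc' k b', hb', hcc]
    generalize ((i + 1 : ℕ) : K) = r at n0
    match_scalars <;> field_simp <;> ring

end

end Pool.Agent.MP_8e2770_co.H18
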