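import Pool.Agent.MP_8e2770_co.H18.GD
import Pool.Agent.MP_8e2770_co.H18.Xop

/-!
The complex attached to a tuple of linear forms; invariance under elementary moves.
-/

namespace Pool.Agent.MP_8e2770_co.H18

open Matrix Kronecker Function

noncomputable section

lemma sub_pow_pred {T : Type} [Ring T] {m : ℕ} (hp : (m + 1).Prime) (h0 : ((m + 1 : ℕ) : T) = 0)
    {A y : T} (h : Commute A y) :
    (A - y) ^ m = ∑ k ∈ Finset.range (m + 1), A ^ k * y ^ (m - k) := by
  have hc : ∀ k ≤ m, (m.choose k : T) = (-1) ^ k := by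
    intro k
    induction k with
    | zero => simp
    | succ k ih =>
      intro hk
      obtain ⟨r, hr⟩ := hp.dvd_choose_self (k := k + 1) (by omega) (by omega)
      have h1 : (((m + 1).choose (k + 1) : ℕ) : T) = 0 := by rw [hr, Nat.cast_mul, h0, zero_mul]
      rw [Nat.choose_succ_succ', Nat.cast_add, ih (by omega)] at h1
      rw [pow_succ, mul_neg_one]
      exact eq_neg_of_add_eq_zero_right h1
  have hm : (-1 : T) ^ m = 1 := by rw [← hc m le_rfl]; simp
  rw [sub_eq_add_neg, h.neg_right.add_pow]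
  refine Finset.sum_congr rfl fun k hk => ?_
  have hk' : k ≤ m := by simpa [Nat.lt_succ_iff] using hk
  rw [hc k hk', neg_pow y, mul_assoc, ((Commute.neg_one_left y).pow_pow _ _).eq, mul_assoc,
    ← pow_add, Nat.sub_add_cancel hk', hm, mul_one]

lemma neg_one_pow_pred {T : Type} [Ring T] {m : ℕ} (hp : (m + 1).Prime)
    (h0 : ((m + 1 : ℕ) : T) = 0) : (-1 : T) ^ m = 1 := by
  have := sub_pow_pred hp h0 (Commute.zero_left (1 : T))
  rw [Finset.sum_range_succ'] at this
  simpa using this

lemma MB.scale {J S : Type} [CommRing S] {l : J → ℤ} {d : ℤ} {M : Matrix J J S}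
    (h : MB l (· = d) M) (k : ℤ) : MB (fun j => k * l j) (· = k * d) M := fun s t hs => by
  have := h s t hs
  simp only at this ⊢
  rw [← this]; ring

lemma kron_map {A B S T : Type} [CommRing S] [CommRing T] (f : S →+* T) (M : Matrix A A S)
    (N : Matrix B B S) : (M ⊗ₖ N).map f = M.map f ⊗ₖ N.map f := by
  ext ⟨a, b⟩ ⟨c, d⟩; simp

variable {K : Type} [Field K] {E : Type} [Fintype E] [DecidableEq E] {n : ℕ} {Λ : Type}
  [Fintype Λ] [DecidableEq Λ] (F : Fer K n Λ) (p : ℕ) {P : Type} [CommRing P] [Algebra K P]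

variable (P) in
/-- Multiplication by the `i`-th linear form. -/
def Ur (c : E → Fin n → K) (i : Fin n) : Matrix (E → Bool) (E → Bool) P :=
  (algebraMap K P).mapMatrix (UU Finset.univ fun e => c e i)

/-- The differential. -/
def DD (c : E → Fin n → K) (z : Fin n → P) : Matrix ((E → Bool) × Λ) ((E → Bool) × Λ) P :=
  GD (F.map (algebraMap K P)) (Ur P c) fun k => z k • Ur P c k ^ (p - 1)

/-- The level. -/
def lv (x : (E → Bool) × Λ) : ℤ := 2 * dg Finset.univ x.1 + (p - 2) * F.cd x.2

/-- The rank hypothesis. -/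
def Hyp (c : E → Fin n → K) (β : ℤ) : Prop :=
  ∀ A : Finset E,
    β ≤ A.card + 2 * (p - 1) * (Module.finrank K (Submodule.span K (c '' {e | e ∉ A})) : ℤ)

lemma Ur_comm (c c' : E → Fin n → K) (i j : Fin n) : Commute (Ur P c i) (Ur P c' j) :=
  (UU_comm _ _ _ _).map _

lemma Ur_deg (c : E → Fin n → K) (i : Fin n) : MB (dg Finset.univ) (· = 1) (Ur P c i) :=
  (UU_deg _ fun _ he _ => if_pos he).map _ (map_zero _)

omit [DecidableEq E] [Algebra K P] in
lemma lv_kron {M : Matrix (E → Bool) (E → Bool) P} {N : Matrix Λ Λ P} {a b d : ℤ}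
    (hM : MB (dg Finset.univ) (· = a) M) (hN : MB F.cd (· = b) N) (h : 2 * a + (p - 2) * b = d) :
    MB (lv F p) (· = d) (M ⊗ₖ N) :=
  (hM.scale 2).kron (fun _ _ => rfl) (hN.scale (p - 2)) fun u v hu hv => by rw [hu, hv, h]

lemma Ur_map {P' : Type} [CommRing P'] [Algebra K P'] (θ : P →ₐ[K] P') (c : E → Fin n → K)
    (i : Fin n) : (θ : P →+* P').mapMatrix (Ur P c i) = Ur P' c i := by
  ext s t; simp [Ur]

lemma DD_map {P' : Type} [CommRing P'] [Algebra K P'] (θ : P →ₐ[K] P') (c : E → Fin n → K)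
    (z : Fin n → P) : (DD F p c z).map (θ : P →+* P') = DD F p c (θ ∘ z) := by
  change (θ : P →+* P').mapMatrix _ = _
  rw [DD, DD, GD, GD, map_sum]
  refine Finset.sum_congr rfl fun k _ => ?_
  have h1 : ∀ M : Matrix Λ Λ K, ((algebraMap K P).mapMatrix M).map (θ : P →+* P') =
      (algebraMap K P').mapMatrix M := fun M => by ext s t; simp
  have h2 : (z k • Ur P c k ^ (p - 1)).map (θ : P →+* P') = θ (z k) • Ur P' c k ^ (p - 1) := by
    rw [← Ur_map θ, ← map_pow]; ext s t; simp
  rw [map_add, RingHom.mapMatrix_apply, RingHom.mapMatrix_apply, kron_map, kron_map, h2,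
    ← RingHom.mapMatrix_apply, Ur_map]
  simp only [Fer.map, h1, Function.comp_apply]

variable [hp : Fact p.Prime]

lemma DD_deg (c : E → Fin n → K) (z : Fin n → P) : MB (lv F p) (· = p) (DD F p c z) := by
  rw [DD, GD]
  refine MB.sum _ fun k _ => MB.add ?_ ?_
  · exact lv_kron F p (Ur_deg c k) ((F.map (algebraMap K P)).di k) (by ring)
  · exact lv_kron F p (((Ur_deg c k).pow (p - 1)).smul _) ((F.map (algebraMap K P)).de k) (by
      rw [Nat.cast_sub hp.out.one_le]; push_cast; ring)

variable [CharP K p]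

lemma Ur_mul_pow (c : E → Fin n → K) (i : Fin n) : Ur P c i * Ur P c i ^ (p - 1) = 0 := by
  rw [← pow_succ', Nat.sub_add_cancel hp.out.one_le, Ur, ← map_pow, UU_pow_char, map_zero]

lemma DD_sq (c : E → Fin n → K) (z : Fin n → P) : DD F p c z * DD F p c z = 0 :=
  GD_sq _ (Ur_comm c c) (fun i j => ((Ur_comm c c i j).pow_right _).smul_right _)
    (fun i j => (((Ur_comm c c i j).pow_pow _ _).smul_right _).smul_left _)
    fun k => by rw [mul_smul_comm, Ur_mul_pow, smul_zero]

/-- The columns after the move `u_j := u_j - g u_i`. -/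
def mv (c : E → Fin n → K) (i j : Fin n) (γ : K) (e : E) : Fin n → K :=
  update (c e) j (c e j - γ * c e i)

omit hp [CharP K p] in
lemma Ur_mv (c : E → Fin n → K) (i j : Fin n) (γ : K) :
    Ur P (mv c i j γ) = update (Ur P c) j
      (Ur P c j + -((algebraMap K P γ • (1 : Matrix (E → Bool) (E → Bool) P)) * Ur P c i)) := by
  funext k
  by_cases h : k = j
  · subst h
    have : (UU Finset.univ fun e => mv c i k γ e k) =
        (UU Finset.univ fun e => c e k) - γ • UU Finset.univ fun e => c e i := by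
      simp only [UU, mv, update_self, Finset.smul_sum, ← Finset.sum_sub_distrib, sub_smul, mul_smul]
    rw [update_self, Ur, this, smul_mul_assoc, one_mul]
    ext s t
    simp only [Ur, RingHom.mapMatrix_apply, Matrix.map_apply, Matrix.sub_apply, Matrix.add_apply,
      Matrix.neg_apply, Matrix.smul_apply, smul_eq_mul, map_sub, map_mul]
    ring
  · simp only [Ur, mv, update_of_ne h]

omit hp [CharP K p] [Fintype E] [DecidableEq E] in
lemma Hyp.mv {c : E → Fin n → K} {β : ℤ} (h : Hyp p c β) {i j : Fin n} (hij : i ≠ j) (γ : K) :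
    Hyp p (mv c i j γ) β := fun A => by
  let f : K → (Fin n → K) →ₗ[K] (Fin n → K) := fun g =>
    LinearMap.id - g • (LinearMap.single K (fun _ => K) j ∘ₗ LinearMap.proj i)
  have hf : ∀ g x, f g x = update x j (x j - g * x i) := fun g x => by
    funext k
    by_cases hk : k = j
    · subst hk; simp [f]
    · simp [f, hk]
  have hi : Injective (f γ) := LeftInverse.injective (g := f (-γ)) fun x => by
    rw [hf, hf, update_idem, update_self, update_of_ne hij]; simp
  have e : H18.mv c i j γ '' {e | e ∉ A} = f γ '' (c '' {e | e ∉ A}) := by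
    rw [Set.image_image]; exact Set.image_congr fun e _ => (hf γ _).symm
  rw [e, ← Submodule.map_span, ← (Submodule.equivMapOfInjective _ hi _).finrank_eq]
  exact h A

lemma Loc.move {T : Type} [Zero T] {c : E → Fin n → K} {z : Fin n → P} {i j : Fin n} (hij : i ≠ j)
    (γ : K) {β : ℤ} {ev : P → T}
    (h : Loc (lv F p) β (DD F p (mv c i j γ)
      (update z i (z i + algebraMap K P γ ^ p * z j))) ev) : Loc (lv F p) β (DD F p c z) ev := by
  obtain ⟨m, rfl⟩ : ∃ m, p = m + 1 := ⟨p - 1, (Nat.sub_add_cancel hp.out.one_le).symm⟩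
  set g := algebraMap K P γ
  have h0 : ((m + 1 : ℕ) : P) = 0 := by
    rw [← map_natCast (algebraMap K P), CharP.cast_eq_zero, map_zero]
  have h0' : ((m + 1 : ℕ) : Matrix (E → Bool) (E → Bool) P) = 0 := by
    rw [← map_natCast (algebraMap P (Matrix (E → Bool) (E → Bool) P)), h0, map_zero]
  have one : ∀ M : Matrix (E → Bool) (E → Bool) P, Commute (g • 1) M := fun M =>
    (Commute.one_left M).smul_left g
  refine Loc.conj (N := (g • 1) ⊗ₖ ((F.map _).ep i * (F.map _).io j)) ?_ ?_
    (conj1 _ hij (fun _ => one _) fun _ => one _) ?_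
  rotate_left
  · rw [← Matrix.mul_kronecker_mul, Fer.ei_sq _ hij, Matrix.kronecker_zero]
  · exact lv_kron F _ (a := 0) (b := 0) ((MB.one (R := (· = 0)) rfl).smul _)
      (((F.map _).de i).mul ((F.map _).di j) fun u v hu hv => by omega) (by ring)
  rw [← Ur_mv]
  set c' := mv c i j γ
  have hA : Ur P c j = Ur P c' j - -(g • Ur P c i) := by
    rw [Ur_mv, update_self, smul_mul_assoc, one_mul]; abel
  have hi : Ur P c' i = Ur P c i := by rw [Ur_mv, update_of_ne hij]
  set A := Ur P c' j
  set y := -(g • Ur P c i) with hy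
  have cy : ∀ c'' k, Commute (Ur P c'' k) y := fun c'' k =>
    ((Ur_comm _ _ _ _).smul_right _).neg_right
  let Q := ∑ k ∈ Finset.range m, A ^ k * y ^ (m - 1 - k)
  have cQ : ∀ c'' k, Commute Q (Ur P c'' k) := fun c'' k =>
    Commute.sum_left _ _ _ fun r _ =>
      ((Ur_comm _ _ _ _).pow_left _).mul_left ((cy _ _).symm.pow_left _)
  have q1 : Ur P c j ^ m = A ^ m + y * Q := by
    rw [hA, sub_pow_pred hp.out h0' (cy _ _), (cy _ _).geom_sum₂_succ_eq]
  have q2 : Ur P c j ^ m = y ^ m + A * Q := by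
    rw [hA, sub_pow_pred hp.out h0' (cy _ _), Finset.sum_range_succ', add_comm, Finset.mul_sum]
    simp only [pow_zero, one_mul, Nat.sub_zero, pow_succ', mul_assoc, Nat.sub_sub, add_comm 1]
    rfl
  refine Loc.conj (N := ((g * z j) • Q) ⊗ₖ ((F.map _).ep j * (F.map _).ep i)) ?_ ?_
    (conj2 _ hij (fun _ => (cQ _ _).smul_left _) fun k => Commute.smul_left ?_ _) ?_
  rotate_left
  · rw [← Matrix.mul_kronecker_mul, Fer.ee_sq, Matrix.kronecker_zero]
  · have b1 : ∀ k, Commute Q (z k • Ur P c k ^ (m + 1 - 1)) := fun k =>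
      ((cQ _ _).pow_right _).smul_right _
    by_cases hk : k = i
    · rw [hk, update_self]; exact (b1 _).add_right ((one _).symm.mul_right (b1 _))
    · rw [update_of_ne hk]; exact b1 _
  · refine lv_kron F _ (a := m - 1) (b := -2) (MB.smul _ (MB.sum _ fun k hk => ?_))
      (((F.map _).de j).mul ((F.map _).de i) fun u v hu hv => by omega) (by push_cast; ring)
    have := Finset.mem_range.1 hk
    exact ((Ur_deg _ _).pow k).mul ((((Ur_deg _ _).smul g).neg).pow (m - 1 - k))
      fun u v hu hv => by omega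
  suffices e : update (update (update (fun k => z k • Ur P c k ^ (m + 1 - 1)) i
      (z i • Ur P c i ^ (m + 1 - 1) + g • 1 * z j • Ur P c j ^ (m + 1 - 1))) j
      (update (fun k => z k • Ur P c k ^ (m + 1 - 1)) i
      (z i • Ur P c i ^ (m + 1 - 1) + g • 1 * z j • Ur P c j ^ (m + 1 - 1)) j +
        (g * z j) • Q * Ur P c' i)) i
      (update (fun k => z k • Ur P c k ^ (m + 1 - 1)) i
      (z i • Ur P c i ^ (m + 1 - 1) + g • 1 * z j • Ur P c j ^ (m + 1 - 1)) i +
        -((g * z j) • Q * A)) =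
      fun k => update z i (z i + g ^ (m + 1) * z j) k • Ur P c' k ^ (m + 1 - 1) by
    rw [e]; exact h
  funext k
  simp only [Nat.add_sub_cancel]
  by_cases hk : k = i
  · subst hk
    have e1 : y ^ m = g ^ m • Ur P c k ^ m := by
      rw [hy, ← neg_smul, smul_pow, neg_pow g, neg_one_pow_pred hp.out h0, one_mul]
    have e2 : Q * A = A * Q := (cQ c' j).eq
    simp only [update_self, smul_mul_assoc, one_mul, hi, q2, e1, e2]
    module
  · rw [update_of_ne hk, update_of_ne hk]
    by_cases hk' : k = j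
    · subst hk'
      rw [update_self, update_of_ne hk, q1, hi, hy]
      simp only [smul_mul_assoc, neg_mul, (cQ c i).eq]
      module
    · rw [update_of_ne hk', update_of_ne hk, Ur_mv, update_of_ne hk']

end

end Pool.Agent.MP_8e2770_co.H18
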