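import Pool.Agent.MP_8e2770_co.H18.Grade

/-!
Matrix models of the exterior algebra: creation and annihilation operators.
-/

namespace Pool.Agent.MP_8e2770_co.H18

open Matrix Kronecker

noncomputable section

/-- Creation operators `ep`, annihilation operators `io`, parity `sg`, codegree `cd`. -/
structure Fer (K : Type) [CommRing K] (n : ℕ) (Λ : Type) [Fintype Λ] [DecidableEq Λ] where
  ep : Fin n → Matrix Λ Λ K
  io : Fin n → Matrix Λ Λ K
  sg : Matrix Λ Λ K
  cd : Λ → ℤ
  top : Λ
  cd_top : cd top = 0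
  cd_nonneg : ∀ a, 0 ≤ cd a
  ee : ∀ i j, ep i * ep j + ep j * ep i = 0
  e2 : ∀ i, ep i * ep i = 0
  ii : ∀ i j, io i * io j + io j * io i = 0
  i2 : ∀ i, io i * io i = 0
  ie : ∀ i j, io i * ep j + ep j * io i = if i = j then 1 else 0
  ss : sg * sg = 1
  se : ∀ i, ep i * sg + sg * ep i = 0
  si : ∀ i, io i * sg + sg * io i = 0
  de : ∀ i, MB cd (· = -1) (ep i)
  di : ∀ i, MB cd (· = 1) (io i)
  ds : MB cd (· = 0) sg

variable (K : Type) [CommRing K]

def nE : Matrix Bool Bool K := Matrix.of fun s t => if s = true ∧ t = false then 1 else 0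
def nI : Matrix Bool Bool K := Matrix.of fun s t => if s = false ∧ t = true then 1 else 0
def nS : Matrix Bool Bool K := Matrix.of fun s t => if s = t then (if s = true then -1 else 1) else 0
def cb (b : Bool) : ℤ := if b = true then 0 else 1

lemma nEE : nE K * nE K = 0 := by
  ext s t; cases s <;> cases t <;> simp [nE, Matrix.mul_apply]
lemma nII : nI K * nI K = 0 := by
  ext s t; cases s <;> cases t <;> simp [nI, Matrix.mul_apply]
lemma nIE : nI K * nE K + nE K * nI K = 1 := by
  ext s t; cases s <;> cases t <;> simp [nI, nE, Matrix.mul_apply]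
lemma nSS : nS K * nS K = 1 := by
  ext s t; cases s <;> cases t <;> simp [nS, Matrix.mul_apply]
lemma nES : nE K * nS K + nS K * nE K = 0 := by
  ext s t; cases s <;> cases t <;> simp [nS, nE, Matrix.mul_apply]
lemma nIS : nI K * nS K + nS K * nI K = 0 := by
  ext s t; cases s <;> cases t <;> simp [nS, nI, Matrix.mul_apply]
lemma nE_deg : MB cb (· = -1) (nE K) := by
  intro s t; cases s <;> cases t <;> simp [nE, cb]
lemma nI_deg : MB cb (· = 1) (nI K) := by
  intro s t; cases s <;> cases t <;> simp [nI, cb]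
lemma nS_deg : MB cb (· = 0) (nS K) := by
  intro s t; cases s <;> cases t <;> simp [nS, cb]

/-- The model with no operators. -/
def Fer.zero : Fer K 0 Unit where
  ep := Fin.elim0
  io := Fin.elim0
  sg := 1
  cd := fun _ => 0
  top := ()
  cd_top := rfl
  cd_nonneg := fun _ => le_rfl
  ee := fun i => i.elim0
  e2 := fun i => i.elim0
  ii := fun i => i.elim0
  i2 := fun i => i.elim0
  ie := fun i => i.elim0
  ss := mul_one _
  se := fun i => i.elim0
  si := fun i => i.elim0
  de := fun i => i.elim0
  di := fun i => i.elim0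
  ds := MB.one rfl

variable {K} {n : ℕ} {Λ : Type} [Fintype Λ] [DecidableEq Λ]

lemma kron_anti {A B : Type} [Fintype A] [Fintype B] (M : Matrix A A K) {x y : Matrix B B K}
    (h : x + y = 0) : M ⊗ₖ x + M ⊗ₖ y = 0 := by
  rw [← Matrix.kronecker_add, h, Matrix.kronecker_zero]

lemma kron_anti' {A B : Type} [Fintype A] [Fintype B] (M : Matrix B B K) {x y : Matrix A A K}
    (h : x + y = 0) : x ⊗ₖ M + y ⊗ₖ M = 0 := by
  rw [← Matrix.add_kronecker, h, Matrix.zero_kronecker]

/-- Adding one more pair of operators. -/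
def Fer.succ (F : Fer K n Λ) : Fer K (n + 1) (Bool × Λ) where
  ep := Fin.cases (nE K ⊗ₖ F.sg) fun i => (1 : Matrix Bool Bool K) ⊗ₖ F.ep i
  io := Fin.cases (nI K ⊗ₖ F.sg) fun i => (1 : Matrix Bool Bool K) ⊗ₖ F.io i
  sg := nS K ⊗ₖ F.sg
  cd := fun x => cb x.1 + F.cd x.2
  top := (true, F.top)
  cd_top := by simp [cb, F.cd_top]
  cd_nonneg := fun a => add_nonneg (by unfold cb; split_ifs <;> simp) (F.cd_nonneg _)
  ee := fun i j => by
    refine Fin.cases ?_ (fun i => ?_) i <;> refine Fin.cases ?_ (fun j => ?_) j <;>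
      simp only [Fin.cases_zero, Fin.cases_succ, ← Matrix.mul_kronecker_mul, one_mul, mul_one]
    · simp [nEE]
    · exact kron_anti _ (by rw [add_comm]; exact F.se j)
    · exact kron_anti _ (F.se i)
    · exact kron_anti _ (F.ee i j)
  e2 := fun i => by
    refine Fin.cases ?_ (fun i => ?_) i <;>
      simp [← Matrix.mul_kronecker_mul, nEE, F.e2]
  ii := fun i j => by
    refine Fin.cases ?_ (fun i => ?_) i <;> refine Fin.cases ?_ (fun j => ?_) j <;>
      simp only [Fin.cases_zero, Fin.cases_succ, ← Matrix.mul_kronecker_mul, one_mul, mul_one]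
    · simp [nII]
    · exact kron_anti _ (by rw [add_comm]; exact F.si j)
    · exact kron_anti _ (F.si i)
    · exact kron_anti _ (F.ii i j)
  i2 := fun i => by
    refine Fin.cases ?_ (fun i => ?_) i <;>
      simp [← Matrix.mul_kronecker_mul, nII, F.i2]
  ie := fun i j => by
    refine Fin.cases ?_ (fun i => ?_) i <;> refine Fin.cases ?_ (fun j => ?_) j <;>
      simp only [Fin.cases_zero, Fin.cases_succ, ← Matrix.mul_kronecker_mul, one_mul, mul_one]
    · rw [← Matrix.add_kronecker, nIE, F.ss, Matrix.one_kronecker_one, if_pos trivial]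
    · rw [if_neg (Fin.succ_ne_zero j).symm]
      exact kron_anti _ (by rw [add_comm]; exact F.se j)
    · rw [if_neg (Fin.succ_ne_zero i)]
      exact kron_anti _ (F.si i)
    · rw [← Matrix.kronecker_add, F.ie]
      by_cases h : i = j <;> simp [h]
  ss := by rw [← Matrix.mul_kronecker_mul, nSS, F.ss, Matrix.one_kronecker_one]
  se := fun i => by
    refine Fin.cases ?_ (fun i => ?_) i <;>
      simp only [Fin.cases_zero, Fin.cases_succ, ← Matrix.mul_kronecker_mul, one_mul, mul_one]
    · exact kron_anti' _ (nES K)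
    · exact kron_anti _ (F.se i)
  si := fun i => by
    refine Fin.cases ?_ (fun i => ?_) i <;>
      simp only [Fin.cases_zero, Fin.cases_succ, ← Matrix.mul_kronecker_mul, one_mul, mul_one]
    · exact kron_anti' _ (nIS K)
    · exact kron_anti _ (F.si i)
  de := fun i => by
    refine Fin.cases ?_ (fun i => ?_) i
    · exact (nE_deg K).kron (fun _ _ => rfl) F.ds fun a b ha hb => by omega
    · exact (MB.one (R := (· = 0)) (l := cb) rfl).kron (fun _ _ => rfl) (F.de i)
        fun a b ha hb => by omega
  di := fun i => by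
    refine Fin.cases ?_ (fun i => ?_) i
    · exact (nI_deg K).kron (fun _ _ => rfl) F.ds fun a b ha hb => by omega
    · exact (MB.one (R := (· = 0)) (l := cb) rfl).kron (fun _ _ => rfl) (F.di i)
        fun a b ha hb => by omega
  ds := (nS_deg K).kron (fun _ _ => rfl) F.ds fun a b ha hb => by omega

end

end Pool.Agent.MP_8e2770_co.H18
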