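import Pool.Agent.MP_8e2770_co.H18.Fer

/-!
Koszul-type differentials and their elementary conjugations.
-/

namespace Pool.Agent.MP_8e2770_co.H18

open Matrix Kronecker Function

noncomputable section

variable {S : Type} [CommRing S] {n : ℕ} {Λ : Type} [Fintype Λ] [DecidableEq Λ]

/-- Change of coefficients. -/
def Fer.map {T : Type} [CommRing T] (F : Fer S n Λ) (f : S →+* T) : Fer T n Λ where
  ep := fun i => f.mapMatrix (F.ep i)
  io := fun i => f.mapMatrix (F.io i)
  sg := f.mapMatrix F.sg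
  cd := F.cd
  top := F.top
  cd_top := F.cd_top
  cd_nonneg := F.cd_nonneg
  ee := fun i j => by rw [← map_mul, ← map_mul, ← map_add, F.ee, map_zero]
  e2 := fun i => by rw [← map_mul, F.e2, map_zero]
  ii := fun i j => by rw [← map_mul, ← map_mul, ← map_add, F.ii, map_zero]
  i2 := fun i => by rw [← map_mul, F.i2, map_zero]
  ie := fun i j => by
    rw [← map_mul, ← map_mul, ← map_add, F.ie]; split_ifs
    · exact map_one _
    · exact map_zero _
  ss := by rw [← map_mul, F.ss, map_one]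
  se := fun i => by rw [← map_mul, ← map_mul, ← map_add, F.se, map_zero]
  si := fun i => by rw [← map_mul, ← map_mul, ← map_add, F.si, map_zero]
  de := fun i => (F.de i).map _ (map_zero _)
  di := fun i => (F.di i).map _ (map_zero _)
  ds := F.ds.map _ (map_zero _)

variable {X : Type} [Fintype X] [DecidableEq X] (F : Fer S n Λ)

/-- The operator `sum a_k iota_k + b_k e_k`. -/
def GD (a b : Fin n → Matrix X X S) : Matrix (X × Λ) (X × Λ) S :=
  ∑ k, (a k ⊗ₖ F.io k + b k ⊗ₖ F.ep k)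

lemma sum_sq_zero {T ι : Type} [Ring T] (s : Finset ι) (x : ι → T)
    (h : ∀ i j, x i * x j + x j * x i = 0) (h2 : ∀ i, x i * x i = 0) :
    (∑ i ∈ s, x i) * (∑ i ∈ s, x i) = 0 := by
  classical
  induction s using Finset.induction_on with
  | empty => simp
  | insert a s ha ih =>
    rw [Finset.sum_insert ha, add_mul, mul_add, mul_add, h2, ih, zero_add, add_zero,
      Finset.mul_sum, Finset.sum_mul, ← Finset.sum_add_distrib]
    exact Finset.sum_eq_zero fun i _ => h a i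

omit [DecidableEq X] [DecidableEq Λ] in
lemma kron_anti2 {u v : Matrix X X S} {x y : Matrix Λ Λ S} (h : Commute u v) :
    (u ⊗ₖ x) * (v ⊗ₖ y) + (v ⊗ₖ y) * (u ⊗ₖ x) = (u * v) ⊗ₖ (x * y + y * x) := by
  rw [← Matrix.mul_kronecker_mul, ← Matrix.mul_kronecker_mul, ← h.eq, Matrix.kronecker_add]

variable {a b : Fin n → Matrix X X S}

omit [DecidableEq X] in
lemma term_anti {q : Matrix X X S} (k j : Fin n) (ha : Commute (a j) q)
    (hb : Commute (b j) q) (h0 : a k * q = 0) :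
    (a j ⊗ₖ F.io j + b j ⊗ₖ F.ep j) * (q ⊗ₖ F.ep k) +
      (q ⊗ₖ F.ep k) * (a j ⊗ₖ F.io j + b j ⊗ₖ F.ep j) = 0 := by
  rw [add_mul, mul_add, add_add_add_comm, kron_anti2 ha, kron_anti2 hb, F.ie, F.ee,
    Matrix.kronecker_zero, add_zero]
  split_ifs with h
  · rw [h, h0, Matrix.zero_kronecker]
  · exact Matrix.kronecker_zero _

omit [DecidableEq X] in
lemma GD_anti {q : Matrix X X S} (k : Fin n) (ha : ∀ j, Commute (a j) q)
    (hb : ∀ j, Commute (b j) q) (h0 : a k * q = 0) :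
    GD F a b * (q ⊗ₖ F.ep k) + (q ⊗ₖ F.ep k) * GD F a b = 0 := by
  rw [GD, Finset.sum_mul, Finset.mul_sum, ← Finset.sum_add_distrib]
  exact Finset.sum_eq_zero fun j _ => term_anti F k j (ha j) (hb j) h0

lemma GD_sq (haa : ∀ i j, Commute (a i) (a j)) (hab : ∀ i j, Commute (a i) (b j))
    (hbb : ∀ i j, Commute (b i) (b j)) (h0 : ∀ k, a k * b k = 0) : GD F a b * GD F a b = 0 := by
  refine sum_sq_zero _ _ (fun i j => ?_) fun i => ?_
  · have h1 := term_anti F j i (hab i j) (hbb i j) (h0 j)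
    have h2 : (a i ⊗ₖ F.io i) * (a j ⊗ₖ F.io j) + (a j ⊗ₖ F.io j) * (a i ⊗ₖ F.io i) = 0 := by
      rw [kron_anti2 (haa i j), F.ii, Matrix.kronecker_zero]
    have h3 : (a j ⊗ₖ F.io j) * (b i ⊗ₖ F.ep i) + (b i ⊗ₖ F.ep i) * (a j ⊗ₖ F.io j) = 0 := by
      rw [kron_anti2 (hab j i), F.ie]
      split_ifs with h
      · rw [h, h0, Matrix.zero_kronecker]
      · exact Matrix.kronecker_zero _
    rw [← zero_add 0, ← zero_add (0 + 0)]
    nth_rewrite 1 [← h1, ← h2, ← h3]
    noncomm_ring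
  · rw [add_mul, mul_add, mul_add]
    simp only [← Matrix.mul_kronecker_mul, F.i2, F.e2, ← (hab i i).eq, h0, Matrix.kronecker_zero,
      Matrix.zero_kronecker, add_zero]

omit [Fintype X] [DecidableEq X] in
lemma GD_update (i j : Fin n) (u v : Matrix X X S) :
    GD F (update a j (a j + u)) (update b i (b i + v)) =
      GD F a b + (u ⊗ₖ F.io j + v ⊗ₖ F.ep i) := by
  have h : ∀ (c : Fin n → Matrix X X S) (y : Fin n → Matrix Λ Λ S) (j : Fin n) (u : Matrix X X S),
      ∑ k, update c j (c j + u) k ⊗ₖ y k = ∑ k, c k ⊗ₖ y k + u ⊗ₖ y j := fun c y j u => by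
    rw [← Finset.add_sum_erase _ _ (Finset.mem_univ j), ← Finset.add_sum_erase _ _ (Finset.mem_univ j),
      update_self, Matrix.add_kronecker, add_right_comm]
    congr 2
    exact Finset.sum_congr rfl fun k hk => by rw [update_of_ne (Finset.ne_of_mem_erase hk)]
  simp only [GD, Finset.sum_add_distrib, h]
  abel

omit [DecidableEq X] in
lemma comm_GD {q : Matrix X X S} {m : Matrix Λ Λ S} (ha : ∀ j, Commute q (a j))
    (hb : ∀ j, Commute q (b j)) :
    (q ⊗ₖ m) * GD F a b - GD F a b * (q ⊗ₖ m) =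
      ∑ k, ((q * a k) ⊗ₖ (m * F.io k - F.io k * m) + (q * b k) ⊗ₖ (m * F.ep k - F.ep k * m)) := by
  rw [GD, Finset.sum_mul, Finset.mul_sum, ← Finset.sum_sub_distrib]
  refine Finset.sum_congr rfl fun k _ => ?_
  rw [mul_add, add_mul]
  simp only [← Matrix.mul_kronecker_mul, ← (ha k).eq, ← (hb k).eq]
  have e : ∀ (u : Matrix X X S) (x y : Matrix Λ Λ S), u ⊗ₖ (x - y) = u ⊗ₖ x - u ⊗ₖ y :=
    fun u x y => by rw [eq_sub_iff_add_eq, ← Matrix.kronecker_add, sub_add_cancel]
  rw [e, e]; abel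

lemma conj_of_comm {T : Type} [Ring T] {N D R : T} (h : N * D - D * N = R) (h0 : R * N = 0) :
    (1 + N) * D = (D + R) * (1 + N) := by
  rw [mul_add, add_mul D R N, h0, ← h]; noncomm_ring

omit [Fintype X] [DecidableEq X] [Fintype Λ] [DecidableEq Λ] in
lemma kron_ite (u : Matrix X X S) (y : Matrix Λ Λ S) (h : Prop) [Decidable h] :
    u ⊗ₖ (if h then y else 0) = if h then u ⊗ₖ y else 0 := by
  split_ifs
  · rfl
  · exact Matrix.kronecker_zero _

omit [Fintype X] [DecidableEq X] [Fintype Λ] [DecidableEq Λ] in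
lemma kron_neg (u : Matrix X X S) (y : Matrix Λ Λ S) : u ⊗ₖ (-y) = (-u) ⊗ₖ y := by
  ext ⟨s, t⟩ ⟨s', t'⟩; simp

lemma conj1 {q : Matrix X X S} {i j : Fin n} (hij : i ≠ j) (ha : ∀ j, Commute q (a j))
    (hb : ∀ j, Commute q (b j)) :
    (1 + q ⊗ₖ (F.ep i * F.io j)) * GD F a b =
      GD F (update a j (a j + -(q * a i))) (update b i (b i + q * b j)) *
        (1 + q ⊗ₖ (F.ep i * F.io j)) := by
  rw [GD_update]
  have h1 : ∀ k, F.ep i * F.io j * F.io k - F.io k * (F.ep i * F.io j) =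
      if k = i then -F.io j else 0 := fun k => by
    rw [mul_assoc, eq_neg_of_add_eq_zero_left (F.ii j k), ← mul_assoc (F.io k),
      eq_sub_of_add_eq (F.ie k i)]
    split_ifs <;> noncomm_ring
  have h2 : ∀ k, F.ep i * F.io j * F.ep k - F.ep k * (F.ep i * F.io j) =
      if k = j then F.ep i else 0 := fun k => by
    rw [mul_assoc, eq_sub_of_add_eq (F.ie j k), ← mul_assoc (F.ep k),
      eq_neg_of_add_eq_zero_left (F.ee k i)]
    by_cases h : k = j
    · rw [if_pos h, if_pos h.symm]; noncomm_ring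
    · rw [if_neg h, if_neg (Ne.symm h)]; noncomm_ring
  refine conj_of_comm ?_ ?_
  · rw [comm_GD F ha hb]
    simp only [h1, h2, kron_ite, Finset.sum_add_distrib, Finset.sum_ite_eq', Finset.mem_univ,
      if_true, kron_neg]
  · have h3 := F.ie j i
    rw [if_neg hij.symm] at h3
    rw [add_mul, ← Matrix.mul_kronecker_mul, ← Matrix.mul_kronecker_mul, ← mul_assoc (F.ep i),
      F.e2, ← mul_assoc (F.io j), eq_neg_of_add_eq_zero_left h3, neg_mul (F.ep i * F.io j),
      mul_assoc (F.ep i), F.i2]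
    simp

lemma conj2 {q : Matrix X X S} {i j : Fin n} (hij : i ≠ j) (ha : ∀ j, Commute q (a j))
    (hb : ∀ j, Commute q (b j)) :
    (1 + q ⊗ₖ (F.ep j * F.ep i)) * GD F a b =
      GD F a (update (update b j (b j + q * a i)) i (b i + -(q * a j))) *
        (1 + q ⊗ₖ (F.ep j * F.ep i)) := by
  have e1 := GD_update F (a := a) (b := b) j j 0 (q * a i)
  have e2 := GD_update F (a := a) (b := update b j (b j + q * a i)) i j 0 (-(q * a j))
  rw [add_zero, update_eq_self, Matrix.zero_kronecker, zero_add] at e1 e2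
  rw [update_of_ne hij] at e2
  rw [e2, e1, add_assoc]
  have h1 : ∀ k, F.ep j * F.ep i * F.io k - F.io k * (F.ep j * F.ep i) =
      (if k = i then F.ep j else 0) + if k = j then -F.ep i else 0 := fun k => by
    rw [mul_assoc, eq_sub_of_add_eq' (F.ie k i), ← mul_assoc (F.io k),
      eq_sub_of_add_eq (F.ie k j)]
    split_ifs <;> noncomm_ring
  have h2 : ∀ k, F.ep j * F.ep i * F.ep k - F.ep k * (F.ep j * F.ep i) = 0 := fun k => by
    rw [mul_assoc, eq_neg_of_add_eq_zero_left (F.ee i k), ← mul_assoc (F.ep k),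
      eq_neg_of_add_eq_zero_left (F.ee k j)]
    noncomm_ring
  refine conj_of_comm ?_ ?_
  · rw [comm_GD F ha hb]
    simp only [h1, h2, kron_ite, Finset.sum_add_distrib, Finset.sum_ite_eq', Finset.mem_univ,
      if_true, kron_neg, Matrix.kronecker_add, Matrix.kronecker_zero, add_zero]
  · rw [add_mul, ← Matrix.mul_kronecker_mul, ← Matrix.mul_kronecker_mul, ← mul_assoc (F.ep j),
      F.e2, ← mul_assoc (F.ep i), eq_neg_of_add_eq_zero_left (F.ee i j),
      neg_mul (F.ep j * F.ep i), mul_assoc (F.ep j), F.e2]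
    simp

lemma Fer.ei_sq {i j : Fin n} (hij : i ≠ j) : F.ep i * F.io j * (F.ep i * F.io j) = 0 := by
  have h3 := F.ie j i
  rw [if_neg hij.symm] at h3
  rw [mul_assoc, ← mul_assoc (F.io j), eq_neg_of_add_eq_zero_left h3, neg_mul, mul_assoc, F.i2]
  simp

lemma Fer.ee_sq (i j : Fin n) : F.ep j * F.ep i * (F.ep j * F.ep i) = 0 := by
  rw [mul_assoc, ← mul_assoc (F.ep i), eq_neg_of_add_eq_zero_left (F.ee i j), neg_mul, mul_assoc,
    F.e2]
  simp

section Loc

variable {J K : Type} [Fintype J] [DecidableEq J] [Zero K]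

/-- Exactness below `b` after inverting elements that do not vanish under `ev`. -/
def Loc (l : J → ℤ) (b : ℤ) (D : Matrix J J S) (ev : S → K) : Prop :=
  ∀ z, VB l (· < b) z → D *ᵥ z = 0 → ∃ f v, ev f ≠ 0 ∧ D *ᵥ v = f • z

lemma Loc.conj {l : J → ℤ} {b : ℤ} {D D' N : Matrix J J S} {ev : S → K} (h : Loc l b D' ev)
    (hN : N * N = 0) (hc : (1 + N) * D = D' * (1 + N)) (hl : MB l (· = 0) N) : Loc l b D ev := by
  intro z h1 h2
  have e1 : (1 - N) * (1 + N) = 1 := by rw [mul_add, sub_mul, sub_mul, hN]; simp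
  have e2 : (1 + N) * (1 - N) = 1 := by rw [mul_sub, add_mul, add_mul, hN]; simp
  obtain ⟨f, v, k1, k2⟩ := h ((1 + N) *ᵥ z)
    (((MB.one (R := (· = 0)) rfl).add hl).mulVec h1 fun u v hu hv => by omega)
    (by rw [Matrix.mulVec_mulVec, ← hc, ← Matrix.mulVec_mulVec, h2, Matrix.mulVec_zero])
  refine ⟨f, (1 - N) *ᵥ v, k1, ?_⟩
  have e3 : D * (1 - N) = (1 - N) * D' := by
    calc D * (1 - N) = (1 - N) * (1 + N) * D * (1 - N) := by rw [e1, one_mul]
      _ = (1 - N) * D' := by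
        rw [mul_assoc (1 - N), hc, mul_assoc (1 - N), mul_assoc D', e2, mul_one]
  rw [Matrix.mulVec_mulVec, e3, ← Matrix.mulVec_mulVec, k2, Matrix.mulVec_smul,
    Matrix.mulVec_mulVec, e1, Matrix.one_mulVec]

omit [DecidableEq J] in
lemma Loc.auto {l : J → ℤ} {b : ℤ} {D D' : Matrix J J S} {ev : S → K} (θ θ' : S →+* S)
    (h : Loc l b D' (ev ∘ θ)) (h1 : ∀ x, θ (θ' x) = x) (h2 : D.map θ' = D') : Loc l b D ev := by
  intro z k1 k2
  have m : ∀ (f : S →+* S) (M : Matrix J J S) (v : J → S), f ∘ (M *ᵥ v) = M.map f *ᵥ (f ∘ v) :=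
    fun f M v => funext fun i => RingHom.map_mulVec f M v i
  obtain ⟨f, v, a1, a2⟩ := h (θ' ∘ z) (k1.comp _ (map_zero _))
    (by rw [← h2, ← m, k2]; funext j; exact map_zero _)
  refine ⟨θ f, θ ∘ v, a1, ?_⟩
  have : D'.map θ = D := by rw [← h2]; ext i j; exact h1 _
  rw [← this, ← m, a2]
  funext j
  simp [h1]

end Loc

end

end Pool.Agent.MP_8e2770_co.H18
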