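import Pool.Agent.MP_8e2770_co.H18.Grade

/-!
From torsion to exactness (local to global step).
-/

namespace Pool.Agent.MP_8e2770_co.H18

open Matrix

noncomputable section

variable {P : Type} [CommRing P] {J : Type} [Fintype J] [DecidableEq J]

/-- The product `B 0 * ... * B (k - 1)`. -/
def phi (B : ℕ → Matrix J J P) : ℕ → Matrix J J P
  | 0 => 1
  | k + 1 => phi B k * B k

omit [DecidableEq J] in
lemma comp_mulVec {T : Type} [CommRing T] (f : P →+* T) (M : Matrix J J P) (v : J → P) :
    f ∘ (M *ᵥ v) = M.map f *ᵥ (f ∘ v) := funext fun i => RingHom.map_mulVec f M v i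

theorem glob [IsDomain P] {l : J → ℤ} (hl : ∀ j, 0 ≤ l j) {p β : ℤ} (hp : 0 < p) {n : ℕ}
    {D : Matrix J J P} {B : ℕ → Matrix J J P} {ζ : ℕ → P} {κ : ℕ → P →+* P}
    (hD : D * D = 0) (hDB : ∀ k, D * B k + B k * D = 0) (hB : ∀ k, B k * B k = 0)
    (hκB : ∀ j k, (B k).map (κ j) = B k)
    (hs : ∀ k < n, D.map (κ k) = D.map (κ (k + 1)) + ζ k • B k)
    (κ0 : ∀ x, κ 0 x = x) (κ1 : ∀ k x, κ k (κ (k + 1) x) = κ (k + 1) x)
    (κ2 : ∀ k x, κ (k + 1) (κ k x) = κ (k + 1) x) (κ3 : ∀ k x, κ k (κ k x) = κ k x)
    (κz : ∀ k < n, κ k (ζ k) = ζ k) (κz' : ∀ k < n, κ (k + 1) (ζ k) = 0)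
    (hdiv : ∀ k < n, ∀ x, ζ k ∣ κ k x - κ (k + 1) x) (hz : ∀ k < n, ζ k ≠ 0)
    (dD : MB l (· = p) D) (dB : ∀ k, MB l (· = p) (B k))
    (htop : ∀ s t, phi B n s t ≠ 0 → β ≤ l s)
    (tor : ∀ z, VB l (· < β) z → D *ᵥ z = 0 → ∀ k < n, ∃ (N : ℕ) (v : J → P),
      D *ᵥ v = ζ k ^ N • z) : Ex l β D := by
  let G : ℕ → Matrix J J P := fun k => D.map (κ k)
  have G0 : G 0 = D := by ext i j; exact κ0 _
  have GG : ∀ k, G k * G k = 0 := fun k => by
    simp only [G, ← Matrix.map_mul, hD, Matrix.map_zero _ (map_zero _)]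
  have GB : ∀ j k, G j * B k + B k * G j = 0 := fun j k => by
    have := congrArg (κ j).mapMatrix (hDB k)
    simpa only [map_add, map_mul, map_zero, RingHom.mapMatrix_apply, hκB] using this
  have dG : ∀ k, MB l (· = p) (G k) := fun k => dD.map _ (map_zero _)
  have m1 : ∀ k v, κ k ∘ (G k *ᵥ v) = G k *ᵥ (κ k ∘ v) := fun k v => by
    rw [comp_mulVec]; congr 1; ext i j; exact κ3 _ _
  have m2 : ∀ k v, κ (k + 1) ∘ (G k *ᵥ v) = G (k + 1) *ᵥ (κ (k + 1) ∘ v) := fun k v => by
    rw [comp_mulVec]; congr 1; ext i j; exact κ2 _ _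
  let Cyc : ℕ → ℤ → (J → P) → Prop := fun k a z =>
    κ k ∘ z = z ∧ G k *ᵥ z = 0 ∧ VB l (· ≤ a) z
  have free : ∀ k (z : J → P), κ (k + 1) ∘ z = z → κ k ∘ z = z := fun k z h => by
    rw [← h]; funext j; exact κ1 _ _
  have split : ∀ k < n, ∀ z, G k *ᵥ z = G (k + 1) *ᵥ z + ζ k • (B k *ᵥ z) := fun k hk z => by
    rw [← Matrix.smul_mulVec, ← Matrix.add_mulVec]; exact congrArg (· *ᵥ z) (hs k hk)
  have sa : ∀ k < n, ∀ a z, Cyc (k + 1) a z → Cyc k (p + a) (B k *ᵥ z) := by
    rintro k hk a z ⟨h1, h2, h3⟩
    refine ⟨by rw [comp_mulVec, hκB, free k z h1], ?_, (dB k).mulVec h3 fun u v hu hv => by omega⟩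
    rw [split k hk, Matrix.mulVec_mulVec, Matrix.mulVec_mulVec, hB, Matrix.zero_mulVec, smul_zero,
      add_zero, eq_neg_of_add_eq_zero_left (GB (k + 1) k), Matrix.neg_mulVec,
      ← Matrix.mulVec_mulVec, h2, Matrix.mulVec_zero, neg_zero]
  have sb : ∀ k ≤ n, ∀ a z, Cyc k a z →
      D *ᵥ (phi B k *ᵥ z) = 0 ∧ VB l (· ≤ a + k * p) (phi B k *ᵥ z) := by
    intro k
    induction k with
    | zero => intro _ a z h; simpa [phi, ← G0] using h.2
    | succ k ih =>
      intro hk a z h
      have := ih (by omega) _ _ (sa k (by omega) a z h)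
      rw [phi, ← Matrix.mulVec_mulVec]
      exact ⟨this.1, this.2.mono fun u hu => by push_cast; linarith⟩
  have sol : ∀ k a v y, κ k ∘ y = y → VB l (· ≤ a) y → G k *ᵥ v = y →
      ∃ w, G k *ᵥ w = y ∧ κ k ∘ w = w ∧ VB l (· ≤ a - p) w := by
    intro k a v y h1 h2 h3
    obtain ⟨w, e1, e2, -⟩ := (dG k).solve (v := v) (Q := (· ≤ a)) (by rw [h3]; exact h2)
    refine ⟨κ k ∘ w, by rw [← m1, e1, h3, h1], funext fun j => κ3 _ _,
      (e2.comp _ (map_zero _)).mono fun u hu => by omega⟩
  have main : ∀ d : ℕ, (d : ℤ) ≤ β → Ex l d D := by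
    intro d
    induction d with
    | zero =>
      intro _ z h _
      refine ⟨0, ?_⟩
      rw [Matrix.mulVec_zero]
      exact (h.eq_zero fun j _ => by have := hl j; simpa using this).symm
    | succ d ih =>
      intro hd
      push_cast at hd
      have ih := ih (by omega)
      have I : ∀ k ≤ n, ∀ z, Cyc k (d - k * p) z → (∃ v, D *ᵥ v = phi B k *ᵥ z) →
          ∃ v, G k *ᵥ v = z := by
        intro k
        induction k with
        | zero => intro _ z _ h; simpa [phi, G0] using h
        | succ k ik =>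
          intro hk z h hv
          have hk' : k < n := by omega
          have c1 := sa k hk' _ z h
          rw [show p + (d - ((k + 1 : ℕ) : ℤ) * p) = d - k * p by push_cast; ring] at c1
          obtain ⟨w0, hw0⟩ := ik hk'.le _ c1 (by rwa [phi, ← Matrix.mulVec_mulVec] at hv)
          obtain ⟨w, e1, e2, e3⟩ := sol k _ w0 _ c1.1 c1.2.2 hw0
          have c2 : Cyc k (d - k * p - p) (z - ζ k • w) := by
            refine ⟨funext fun j => ?_, ?_, (h.2.2.mono fun u hu => ?_).sub (e3.smul _)⟩
            · have a1 := congrFun (free k z h.1) j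
              have a2 := congrFun e2 j
              simp only [Function.comp_apply] at a1 a2
              simp [a1, a2, κz k hk']
            · rw [Matrix.mulVec_sub, Matrix.mulVec_smul, e1, split k hk', h.2.1, zero_add, sub_self]
            · push_cast at hu; linarith
          have c3 := sb k hk'.le _ _ c2
          obtain ⟨v, hv⟩ := ik hk'.le _ ⟨c2.1, c2.2.1, c2.2.2.mono fun u hu => by omega⟩
            (ih _ (c3.2.mono fun u hu => by linarith) c3.1)
          refine ⟨κ (k + 1) ∘ v, ?_⟩
          rw [← m2, hv]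
          funext j
          have a1 := congrFun h.1 j
          simp only [Function.comp_apply] at a1
          simp [a1, κz' k hk']
      have W : ∀ m k, k + m = n → ∀ z, Cyc k (d - k * p) z → ∃ v, G k *ᵥ v = z := by
        intro m
        induction m with
        | zero =>
          intro k hk z h
          obtain rfl : k = n := hk
          refine I k le_rfl z h ⟨0, ?_⟩
          rw [Matrix.mulVec_zero]
          refine ((sb k le_rfl _ _ h).2.eq_zero fun s hs => ?_).symm
          rw [Matrix.mulVec, dotProduct] at hs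
          obtain ⟨j, -, hj⟩ := Finset.exists_ne_zero_of_sum_ne_zero hs
          have := htop s j (left_ne_zero_of_mul hj)
          intro h0; linarith
        | succ m im =>
          intro k hk z h
          have hk' : k < n := by omega
          have cs : ∀ (N : ℕ) y, Cyc k (d - k * p) y → Cyc k (d - k * p) (ζ k ^ N • y) := by
            rintro N y ⟨h1, h2, h3⟩
            refine ⟨funext fun j => ?_, by rw [Matrix.mulVec_smul, h2, smul_zero], h3.smul _⟩
            have a1 := congrFun h1 j
            simp only [Function.comp_apply] at a1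
            simp [a1, κz k hk']
          have inj : ∀ y, Cyc k (d - k * p) y → (∃ v, G k *ᵥ v = ζ k • y) →
              ∃ v, G k *ᵥ v = y := by
            rintro y hy ⟨v0, hv0⟩
            have hy1 := cs 1 y hy
            rw [pow_one] at hy1
            obtain ⟨v, e1, e2, e3⟩ := sol k _ v0 _ hy1.1 hy1.2.2 hv0
            obtain ⟨t, ht⟩ := im (k + 1) (by omega) (κ (k + 1) ∘ v) ⟨funext fun j => κ3 _ _, by
              rw [← m2, e1]; funext j; simp [κz' k hk'],
              (e3.comp _ (map_zero _)).mono fun u hu => by push_cast; linarith⟩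
            choose s hs' using fun j => hdiv k hk' (v j)
            have e4 : v = G k *ᵥ t + ζ k • (s - B k *ᵥ t) := by
              rw [split k hk', ht]
              funext j
              have a1 := congrFun e2 j
              have a2 := hs' j
              simp only [Function.comp_apply] at a1
              rw [a1] at a2
              simp only [Pi.add_apply, Pi.smul_apply, Pi.sub_apply, Function.comp_apply,
                smul_eq_mul]
              linear_combination a2
            refine ⟨s - B k *ᵥ t, funext fun j => mul_left_cancel₀ (hz k hk') ?_⟩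
            rw [e4, Matrix.mulVec_add, Matrix.mulVec_mulVec, GG, Matrix.zero_mulVec, zero_add,
              Matrix.mulVec_smul] at e1
            exact congrFun e1 j
          have c3 := sb k hk'.le _ _ h
          obtain ⟨N, v, hv⟩ := tor _ (c3.2.mono fun u hu => by linarith) c3.1 k hk'
          have hN := I k hk'.le _ (cs N z h) ⟨v, by rw [hv, Matrix.mulVec_smul]⟩
          clear hv
          induction N with
          | zero => simpa using hN
          | succ N iN => exact iN (inj _ (cs N z h) (by rwa [smul_smul, ← pow_succ']))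
      intro z h1 h2
      rw [← G0]
      exact W n 0 (zero_add n) z ⟨funext fun j => κ0 _, by rwa [G0],
        h1.mono fun u hu => by push_cast at hu ⊢; linarith⟩
  intro z h1 h2
  by_cases hb : 0 ≤ β
  · lift β to ℕ using hb
    exact main β le_rfl z h1 h2
  · exact ⟨0, by
      rw [Matrix.mulVec_zero]
      exact (h1.eq_zero fun j _ => by have := hl j; omega).symm⟩

end

end Pool.Agent.MP_8e2770_co.H18
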