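import Mathlib

/-!
Level bookkeeping for matrices and vectors; generalised inverses; the Kuenneth step.
-/

namespace Pool.Agent.MP_8e2770_co.H18

open Matrix Kronecker

noncomputable section

section Basic

variable {J : Type} {S : Type} [CommRing S]

/-- Every nonzero entry changes the level by an amount satisfying `R`. -/
def MB (l : J → ℤ) (R : ℤ → Prop) (M : Matrix J J S) : Prop :=
  ∀ s t, M s t ≠ 0 → R (l s - l t)

/-- The vector is supported on levels satisfying `Q`. -/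
def VB (l : J → ℤ) (Q : ℤ → Prop) (z : J → S) : Prop := ∀ j, z j ≠ 0 → Q (l j)

variable {l : J → ℤ} {R R' R'' Q Q' : ℤ → Prop} {M N : Matrix J J S} {z y : J → S}

lemma MB.mono (h : MB l R M) (hR : ∀ a, R a → R' a) : MB l R' M := fun s t hs => hR _ (h s t hs)

lemma MB.zero : MB l R (0 : Matrix J J S) := fun _ _ h => (h rfl).elim

lemma MB.add (h : MB l R M) (h' : MB l R N) : MB l R (M + N) := fun s t hs => by
  by_cases h0 : M s t = 0
  · exact h' s t fun h1 => hs (by rw [Matrix.add_apply, h0, h1, add_zero])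
  · exact h s t h0

lemma MB.neg (h : MB l R M) : MB l R (-M) := fun s t hs => h s t fun h0 => hs (by simp [h0])

lemma MB.sub (h : MB l R M) (h' : MB l R N) : MB l R (M - N) := by
  rw [sub_eq_add_neg]; exact h.add h'.neg

lemma MB.smul {T : Type} [Monoid T] [DistribMulAction T S] (c : T) (h : MB l R M) :
    MB l R (c • M) := fun s t hs => h s t fun h0 => hs (by simp [h0])

lemma MB.sum {ι : Type} (s : Finset ι) {f : ι → Matrix J J S} (h : ∀ i ∈ s, MB l R (f i)) :
    MB l R (∑ i ∈ s, f i) :=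
  Finset.sum_induction f (MB l R) (fun _ _ => MB.add) MB.zero h

lemma MB.one [DecidableEq J] (h : R 0) : MB l R (1 : Matrix J J S) := fun s t hs => by
  by_cases h0 : s = t
  · rw [h0, sub_self]; exact h
  · exact (hs (Matrix.one_apply_ne h0)).elim

lemma MB.mul [Fintype J] (h : MB l R M) (h' : MB l R' N) (hR : ∀ a b, R a → R' b → R'' (a + b)) :
    MB l R'' (M * N) := fun s t hs => by
  rw [Matrix.mul_apply] at hs
  obtain ⟨j, -, hj⟩ := Finset.exists_ne_zero_of_sum_ne_zero hs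
  have := hR _ _ (h s j (left_ne_zero_of_mul hj)) (h' j t (right_ne_zero_of_mul hj))
  rwa [sub_add_sub_cancel] at this

lemma MB.pow [Fintype J] [DecidableEq J] {d : ℤ} (h : MB l (· = d) M) (k : ℕ) :
    MB l (· = k * d) (M ^ k) := by
  induction k with
  | zero => rw [pow_zero]; exact MB.one (by simp)
  | succ k ih => rw [pow_succ]; exact ih.mul h fun a b ha hb => by rw [ha, hb]; push_cast; ring

lemma MB.pow_ge [Fintype J] [DecidableEq J] (h : MB l (0 ≤ ·) M) (k : ℕ) :
    MB l (0 ≤ ·) (M ^ k) := by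
  induction k with
  | zero => rw [pow_zero]; exact MB.one le_rfl
  | succ k ih => rw [pow_succ]; exact ih.mul h fun a b ha hb => add_nonneg ha hb

lemma MB.pow_sub [Fintype J] [DecidableEq J] (h : MB l (0 ≤ ·) M) (h' : MB l (0 ≤ ·) N)
    (hd : MB l (0 < ·) (M - N)) (k : ℕ) : MB l (0 < ·) (M ^ k - N ^ k) := by
  induction k with
  | zero => rw [pow_zero, pow_zero, sub_self]; exact MB.zero
  | succ k ih =>
    have e : M ^ (k + 1) - N ^ (k + 1) = M * (M ^ k - N ^ k) + (M - N) * N ^ k := by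
      rw [pow_succ', pow_succ', mul_sub, sub_mul]; abel
    rw [e]
    exact (h.mul ih fun a b ha hb => by omega).add
      (hd.mul (h'.pow_ge k) fun a b ha hb => by omega)

lemma MB.map {T : Type} [CommRing T] (h : MB l R M) (f : S → T) (hf : f 0 = 0) :
    MB l R (M.map f) := fun s t hs => h s t fun h0 => hs (by rw [Matrix.map_apply, h0, hf])

lemma MB.kron {J' : Type} {l' : J' → ℤ} {M' : Matrix J' J' S} {L : J × J' → ℤ}
    (hL : ∀ a b, L (a, b) = l a + l' b) (h : MB l R M) (h' : MB l' R' M')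
    (hR : ∀ a b, R a → R' b → R'' (a + b)) : MB L R'' (M ⊗ₖ M') := by
  rintro ⟨a, b⟩ ⟨c, d⟩ hs
  rw [Matrix.kronecker_apply] at hs
  have := hR _ _ (h a c (left_ne_zero_of_mul hs)) (h' b d (right_ne_zero_of_mul hs))
  rw [hL, hL]
  rwa [show l a - l c + (l' b - l' d) = l a + l' b - (l c + l' d) by ring] at this

lemma VB.mono (h : VB l Q z) (hQ : ∀ a, Q a → Q' a) : VB l Q' z := fun s hs => hQ _ (h s hs)

lemma VB.add (h : VB l Q z) (h' : VB l Q y) : VB l Q (z + y) := fun s hs => by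
  by_cases h0 : z s = 0
  · exact h' s fun h1 => hs (by rw [Pi.add_apply, h0, h1, add_zero])
  · exact h s h0

lemma VB.neg (h : VB l Q z) : VB l Q (-z) := fun s hs => h s fun h0 => hs (by simp [h0])

lemma VB.sub (h : VB l Q z) (h' : VB l Q y) : VB l Q (z - y) := by
  rw [sub_eq_add_neg]; exact h.add h'.neg

lemma VB.smul (c : S) (h : VB l Q z) : VB l Q (c • z) :=
  fun s hs => h s fun h0 => hs (by simp [h0])

lemma VB.comp {T : Type} [CommRing T] (h : VB l Q z) (f : S → T) (hf : f 0 = 0) :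
    VB l Q (f ∘ z) := fun s hs => h s fun h0 => hs (by rw [Function.comp_apply, h0, hf])

lemma VB.sub_supp (h : VB l Q z) (hy : ∀ j, y j = z j ∨ y j = 0) : VB l Q y := fun s hs =>
  h s fun h0 => hs (by rcases hy s with h1 | h1 <;> simp [h1, h0])

lemma MB.mulVec [Fintype J] (h : MB l R M) (hz : VB l Q z)
    (hR : ∀ a b, R a → Q b → Q' (a + b)) : VB l Q' (M *ᵥ z) := fun s hs => by
  rw [Matrix.mulVec, dotProduct] at hs
  obtain ⟨j, -, hj⟩ := Finset.exists_ne_zero_of_sum_ne_zero hs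
  have := hR _ _ (h s j (left_ne_zero_of_mul hj)) (hz j (right_ne_zero_of_mul hj))
  rwa [sub_add_cancel] at this

lemma VB.eq_zero (h : VB l Q z) (h' : VB l (fun a => ¬ Q a) z) : z = 0 := by
  funext j
  by_contra h0
  exact h' j h0 (h j h0)

/-- A preimage under a homogeneous matrix can be chosen on the expected levels. -/
lemma MB.solve [Fintype J] {d : ℤ} (h : MB l (· = d) M) {v : J → S} (hz : VB l Q (M *ᵥ v)) :
    ∃ v', M *ᵥ v' = M *ᵥ v ∧ VB l (fun a => Q (d + a)) v' ∧ ∀ j, v' j = v j ∨ v' j = 0 := by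
  classical
  let v1 : J → S := fun j => if Q (d + l j) then v j else 0
  have h1 : VB l (fun a => Q (d + a)) v1 := fun j hj => by
    by_contra h0
    exact hj (if_neg h0)
  have h2 : VB l (fun a => ¬ Q (d + a)) (v - v1) := fun j hj h0 =>
    hj (by simp [v1, h0])
  refine ⟨v1, ?_, h1, fun j => ?_⟩
  · have a1 : VB l Q (M *ᵥ (v - v1)) := by
      rw [Matrix.mulVec_sub]
      exact hz.sub (h.mulVec h1 fun a b ha hb => by rw [ha]; exact hb)
    have a2 : VB l (fun a => ¬ Q a) (M *ᵥ (v - v1)) :=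
      h.mulVec h2 fun a b ha hb => by rw [ha]; exact hb
    have := a1.eq_zero a2
    rw [Matrix.mulVec_sub, sub_eq_zero] at this
    exact this.symm
  · by_cases h0 : Q (d + l j) <;> simp [v1, h0]

/-- Exactness on levels below `b`. -/
def Ex [Fintype J] (l : J → ℤ) (b : ℤ) (D : Matrix J J S) : Prop :=
  ∀ z, VB l (· < b) z → D *ᵥ z = 0 → ∃ v, D *ᵥ v = z

end Basic

section Inverse

variable {K : Type} [Field K]

lemma exists_ginv {V W : Type} [AddCommGroup V] [Module K V] [AddCommGroup W] [Module K W]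
    (f : V →ₗ[K] W) : ∃ g : W →ₗ[K] V, ∀ v, f (g (f v)) = f v := by
  obtain ⟨s, hs⟩ := f.rangeRestrict.exists_rightInverse_of_surjective f.range_rangeRestrict
  obtain ⟨r, hr⟩ := (LinearMap.range f).subtype.exists_leftInverse_of_injective
    (Submodule.ker_subtype _)
  refine ⟨s ∘ₗ r, fun v => ?_⟩
  have h1 : r (f v) = f.rangeRestrict v := LinearMap.congr_fun hr (f.rangeRestrict v)
  have h2 := congrArg Subtype.val (LinearMap.congr_fun hs (f.rangeRestrict v))
  rw [LinearMap.comp_apply, h1]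
  exact h2

variable {J : Type} [Fintype J] [DecidableEq J]

/-- A homotopy to a map that kills boundaries, has cycles as values and kills the low levels. -/
lemma exists_htpy {l : J → ℤ} {b : ℤ} {D : Matrix J J K} (h2 : D * D = 0) (hD : Ex l b D) :
    ∃ H P : Matrix J J K, 1 - P = D * H + H * D ∧ D * P = 0 ∧ P * D = 0 ∧
      ∀ s t, P s t ≠ 0 → b ≤ l t := by
  let V0 : Submodule K (J → K) :=
    { carrier := {z | VB l (· < b) z}
      add_mem' := fun ha hb => ha.add hb
      zero_mem' := fun j hj => (hj rfl).elim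
      smul_mem' := fun c _ hz => VB.smul c hz }
  let f := Matrix.toLin' D
  have ff : ∀ v, f (f v) = 0 := fun v => by
    simp only [f, Matrix.toLin'_apply, Matrix.mulVec_mulVec, h2, Matrix.zero_mulVec]
  obtain ⟨ga, ha⟩ := exists_ginv f
  obtain ⟨gb, hb⟩ := exists_ginv (f ∘ₗ V0.subtype)
  let g0 : (J → K) →ₗ[K] (J → K) := V0.subtype ∘ₗ gb
  let g : (J → K) →ₗ[K] (J → K) := g0 + ga ∘ₗ (LinearMap.id - f ∘ₗ g0)
  have e1 : ∀ v, f (g (f v)) = f v := fun v => by
    have : g (f v) = g0 (f v) + ga (f (v - g0 (f v))) := by simp [g]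
    rw [this, map_add, ha, map_sub]; abel
  have e2 : ∀ v ∈ V0, ∃ y, f y = v - g (f v) := fun v hv => by
    have h0 : f (g0 (f v)) = f v := hb ⟨v, hv⟩
    have : g (f v) = g0 (f v) := by simp [g, h0]
    refine hD _ (V0.sub_mem hv ?_) ?_
    · rw [this]; exact (gb (f v)).2
    · change f _ = 0
      rw [map_sub, e1, sub_self]
  let G := LinearMap.toMatrix' g
  have hG : D * G * D = D := by
    apply Matrix.toLin'.injective
    refine LinearMap.ext fun v => ?_
    simp only [Matrix.toLin'_mul, G, Matrix.toLin'_toMatrix', LinearMap.comp_apply]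
    exact e1 v
  refine ⟨G - G * G * D, (1 - D * G) * (1 - G * D), ?_, ?_, ?_, fun s t hs => ?_⟩
  · have : G * G * D * D = 0 := by rw [mul_assoc, h2, mul_zero]
    rw [sub_mul G, this]; noncomm_ring
  · rw [← mul_assoc, mul_sub D, ← mul_assoc, h2, zero_mul, sub_zero, mul_one, mul_sub, mul_one,
      ← mul_assoc, hG, sub_self]
  · rw [mul_assoc, sub_mul 1 (G * D), mul_assoc G, h2, mul_zero, sub_zero, one_mul, sub_mul,
      one_mul, hG, sub_self]
  · by_contra hlt
    obtain ⟨y, hy⟩ := e2 (Pi.single t 1) fun j hj => by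
      have : j = t := by by_contra h; exact hj (Pi.single_eq_of_ne h _)
      rw [this]; exact not_le.1 hlt
    have h3 : (1 - G * D) *ᵥ Pi.single t 1 = D *ᵥ y := by
      rw [Matrix.sub_mulVec, Matrix.one_mulVec, ← Matrix.mulVec_mulVec]
      refine Eq.trans ?_ hy.symm
      simp only [G, f, Matrix.toLin'_apply, LinearMap.toMatrix'_mulVec]
    have h4 : ((1 - D * G) * (1 - G * D)) *ᵥ Pi.single t 1 = 0 := by
      rw [← Matrix.mulVec_mulVec, h3, Matrix.mulVec_mulVec, sub_mul, one_mul, hG, sub_self,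
        Matrix.zero_mulVec]
    apply hs
    simpa using congrFun h4 s

end Inverse

section Kun

variable {S : Type} [CommRing S] {J J' : Type} [Fintype J] [DecidableEq J] [Fintype J']
  [DecidableEq J']

omit [DecidableEq J'] in
lemma one_kron_mulVec (M : Matrix J' J' S) (z : J × J' → S) (a : J) (b : J') :
    (((1 : Matrix J J S) ⊗ₖ M) *ᵥ z) (a, b) = (M *ᵥ fun c => z (a, c)) b := by
  simp [Matrix.mulVec, dotProduct, Fintype.sum_prod_type, Matrix.one_apply]

lemma kuenneth {l : J → ℤ} {l' : J' → ℤ} {b b' : ℤ} {L : J × J' → ℤ}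
    (hL : ∀ a c, L (a, c) = l a + l' c) {D H P : Matrix J J S} {D' s : Matrix J' J' S}
    (h1 : 1 - P = D * H + H * D) (h2 : D * P = 0) (h3 : P * D = 0)
    (h4 : ∀ a t, P a t ≠ 0 → b ≤ l t) (hs : s * s = 1) (hs' : D' * s + s * D' = 0)
    (hD : Ex l' b' D') : Ex L (b + b') (D ⊗ₖ s + (1 : Matrix J J S) ⊗ₖ D') := by
  intro z hz hc
  set T := D ⊗ₖ s + (1 : Matrix J J S) ⊗ₖ D' with hT
  let Pm : Matrix (J × J') (J × J') S := P ⊗ₖ (1 : Matrix J' J' S)
  have e1 : T * (H ⊗ₖ s) + (H ⊗ₖ s) * T = 1 - Pm := by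
    have : (1 : Matrix (J × J') (J × J') S) = (1 - P) ⊗ₖ (1 : Matrix J' J' S) + Pm := by
      rw [← Matrix.add_kronecker, sub_add_cancel, Matrix.one_kronecker_one]
    rw [eq_sub_iff_add_eq, this, h1, hT, add_mul, mul_add]
    simp only [← Matrix.mul_kronecker_mul, hs, one_mul, mul_one, Matrix.add_kronecker]
    have h0 : H ⊗ₖ (D' * s) + H ⊗ₖ (s * D') = 0 := by
      rw [← Matrix.kronecker_add, hs', Matrix.kronecker_zero]
    rw [← sub_eq_zero, ← h0]; abel
  have e2 : T * Pm = Pm * ((1 : Matrix J J S) ⊗ₖ D') := by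
    rw [hT, add_mul]
    simp only [Pm, ← Matrix.mul_kronecker_mul, h2, one_mul, mul_one, Matrix.zero_kronecker, zero_add]
  have e3 : Pm * T = ((1 : Matrix J J S) ⊗ₖ D') * Pm := by
    rw [hT, mul_add]
    simp only [Pm, ← Matrix.mul_kronecker_mul, h3, one_mul, mul_one, Matrix.zero_kronecker, zero_add]
  have e4 : T * Pm = Pm * T := by
    rw [e2, e3]; simp only [Pm, ← Matrix.mul_kronecker_mul, one_mul, mul_one]
  have key : ∀ y, T *ᵥ y = 0 → T *ᵥ ((H ⊗ₖ s) *ᵥ y) = y - Pm *ᵥ y := fun y hy => by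
    have := congrArg (· *ᵥ y) e1
    simp only [Matrix.add_mulVec, Matrix.sub_mulVec, Matrix.one_mulVec, ← Matrix.mulVec_mulVec,
      hy, Matrix.mulVec_zero, add_zero] at this
    exact this
  have c1 : T *ᵥ (Pm *ᵥ z) = 0 := by
    rw [Matrix.mulVec_mulVec, e4, ← Matrix.mulVec_mulVec, hc, Matrix.mulVec_zero]
  have c2 : ((1 : Matrix J J S) ⊗ₖ D') *ᵥ (Pm *ᵥ z) = 0 := by
    rw [Matrix.mulVec_mulVec, ← e3, ← Matrix.mulVec_mulVec, hc, Matrix.mulVec_zero]
  have hw : ∀ a, ∃ w, D' *ᵥ w = fun c => (Pm *ᵥ z) (a, c) := fun a => by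
    refine hD _ (fun c hc => ?_) (funext fun c => ?_)
    · rw [Matrix.mulVec, dotProduct] at hc
      obtain ⟨⟨t, c'⟩, -, hj⟩ := Finset.exists_ne_zero_of_sum_ne_zero hc
      have k1 := left_ne_zero_of_mul hj
      have k2 := hz _ (right_ne_zero_of_mul hj)
      simp only [Pm, Matrix.kronecker_apply] at k1
      have k3 := h4 _ _ (left_ne_zero_of_mul k1)
      have k4 : c = c' := by
        by_contra h; exact right_ne_zero_of_mul k1 (Matrix.one_apply_ne h)
      rw [hL] at k2
      subst k4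
      show l' c < b'
      omega
    · rw [← one_kron_mulVec, c2]; rfl
  choose w hw using hw
  have c3 : ((1 : Matrix J J S) ⊗ₖ D') *ᵥ (fun x => w x.1 x.2) = Pm *ᵥ z := by
    funext ⟨a, c⟩
    rw [one_kron_mulVec]; exact congrFun (hw a) c
  refine ⟨(H ⊗ₖ s) *ᵥ z + (H ⊗ₖ s) *ᵥ (Pm *ᵥ z) + Pm *ᵥ fun x => w x.1 x.2, ?_⟩
  rw [Matrix.mulVec_add, Matrix.mulVec_add, key z hc, key _ c1, Matrix.mulVec_mulVec _ T, e2,
    ← Matrix.mulVec_mulVec, c3]
  abel

end Kun

end

end Pool.Agent.MP_8e2770_co.H18
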