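import Pool.Agent.MP_8e2770_co.H18.Core
import Pool.Agent.MP_8e2770_co.H18.Glob

/-!
The induction on the number of forms and the socle bound.
-/

namespace Pool.Agent.MP_8e2770_co.H18

open Matrix Kronecker Function MvPolynomial

noncomputable section

section Kill

variable {K τ : Type} [Field K]

open Classical in
/-- Setting the variables in `A` to zero. -/
def kill (K : Type) [Field K] (A : τ → Prop) : MvPolynomial τ K →ₐ[K] MvPolynomial τ K :=
  aeval fun t => if A t then 0 else X t

lemma kill_pos {A : τ → Prop} {t : τ} (h : A t) : kill K A (X t) = 0 := by simp [kill, h]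

lemma kill_neg {A : τ → Prop} {t : τ} (h : ¬ A t) : kill K A (X t) = X t := by simp [kill, h]

lemma kill_kill {A B D : τ → Prop} (h : ∀ t, D t ↔ A t ∨ B t) (x : MvPolynomial τ K) :
    kill K A (kill K B x) = kill K D x := by
  refine AlgHom.congr_fun (φ₁ := (kill K A).comp (kill K B)) (algHom_ext fun t => ?_) x
  rw [AlgHom.comp_apply]
  by_cases hB : B t
  · rw [kill_pos hB, map_zero, kill_pos ((h t).2 (Or.inr hB))]
  · rw [kill_neg hB]
    by_cases hA : A t
    · rw [kill_pos hA, kill_pos ((h t).2 (Or.inl hA))]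
    · rw [kill_neg hA, kill_neg fun h1 => ((h t).1 h1).elim hA hB]

lemma kill_dvd {A B : τ → Prop} {t0 : τ} (h : ∀ t, B t ↔ A t ∨ t = t0) (x : MvPolynomial τ K) :
    X t0 ∣ kill K A x - kill K B x := by
  induction x using MvPolynomial.induction_on with
  | C a => simp [kill]
  | add x y hx hy => rw [map_add, map_add, add_sub_add_comm]; exact hx.add hy
  | mul_X x t hx =>
    rw [map_mul, map_mul]
    by_cases hA : A t
    · rw [kill_pos hA, kill_pos ((h t).2 (Or.inl hA))]; simp
    · rw [kill_neg hA]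
      by_cases hB : B t
      · rw [kill_pos hB, ((h t).1 hB).resolve_left hA]; simp
      · rw [kill_neg hB, ← sub_mul]; exact hx.mul_right _

end Kill

variable {K : Type} [Field K] {n : ℕ} {Λ : Type} [Fintype Λ] [DecidableEq Λ] {F : Fer K n Λ}
  {p : ℕ} [hp : Fact p.Prime]

lemma Hyp.le {E : Type} {c : E → Fin n → K} {β : ℤ} (h : Hyp p c β) : β ≤ 2 * (p - 1) * n := by
  have h1 := h ∅
  have h2 := Submodule.finrank_le (Submodule.span K (c '' {e | e ∉ (∅ : Finset E)}))
  rw [Module.finrank_fin_fun] at h2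
  have h3 : (0 : ℤ) ≤ 2 * (p - 1) := by have := hp.out.one_le; omega
  have h4 := mul_le_mul_of_nonneg_left (Int.ofNat_le.2 h2) h3
  simp only [Finset.card_empty] at h1
  omega

lemma lv_ge {E : Type} [Fintype E] (x : (E → Bool) × Λ) : 2 * dg Finset.univ x.1 ≤ lv F p x := by
  have p2 : (0 : ℤ) ≤ p - 2 := by have := hp.out.two_le; omega
  exact le_add_of_nonneg_right (mul_nonneg p2 (F.cd_nonneg _))

variable [CharP K p]

theorem exact_of_torsion {E : Type} [Fintype E] [DecidableEq E] {c : E → Fin n → K} {β : ℤ}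
    {τ : Type} {ν : Fin n → τ} (hν : Injective ν) (h : Hyp p c β)
    (tor : ∀ z, VB (lv F p) (· < β) z → DD F p c (fun i => (X (ν i) : MvPolynomial τ K)) *ᵥ z = 0 →
      ∀ k, ∃ (N : ℕ) (v : _), DD F p c (fun i => (X (ν i) : MvPolynomial τ K)) *ᵥ v =
        (X (ν k) : MvPolynomial τ K) ^ N • z) :
    Ex (lv F p) β (DD F p c fun i => (X (ν i) : MvPolynomial τ K)) := by
  let P := MvPolynomial τ K
  let f := algebraMap K P
  let B : ℕ → Matrix ((E → Bool) × Λ) ((E → Bool) × Λ) P := fun k =>
    if h : k < n then (Ur P c ⟨k, h⟩ ^ (p - 1)) ⊗ₖ (F.map f).ep ⟨k, h⟩ else 0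
  let A : ℕ → τ → Prop := fun k t => ∃ i, ν i = t ∧ i.1 < k
  have hA : ∀ k i, A k (ν i) ↔ i.1 < k := fun k i =>
    ⟨fun ⟨j, h1, h2⟩ => hν h1 ▸ h2, fun h => ⟨i, rfl, h⟩⟩
  have mono : ∀ k t, A k t → A (k + 1) t := fun k t ⟨i, h1, h2⟩ => ⟨i, h1, by omega⟩
  have pc : ((p - 1 : ℕ) : ℤ) = p - 1 := Nat.cast_sub hp.out.one_le
  have hB : ∀ k (h : k < n), B k = (Ur P c ⟨k, h⟩ ^ (p - 1)) ⊗ₖ (F.map f).ep ⟨k, h⟩ :=
    fun k h => dif_pos h
  have hB' : ∀ k, ¬ k < n → B k = 0 := fun k h => dif_neg h
  refine glob (n := n) (B := B) (ζ := fun k => if h : k < n then X (ν ⟨k, h⟩) else 0)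
    (κ := fun k => (kill K (A k) : P →+* P)) (p := p)
    (fun j => le_trans (mul_nonneg zero_le_two (dg_nonneg _ _)) (lv_ge j))
    (by exact_mod_cast hp.out.pos) (DD_sq _ p _ _) (fun k => ?_) (fun k => ?_) (fun j k => ?_)
    (fun k hk => ?_) (fun x => ?_) (fun k x => ?_) (fun k x => ?_) (fun k x => ?_) (fun k hk => ?_)
    (fun k hk => ?_) (fun k hk x => ?_) (fun k hk => ?_) (DD_deg _ p _ _) (fun k => ?_)
    (fun s t hs => ?_) fun z h1 h2 k hk => ?_
  · by_cases hk : k < n
    · rw [hB k hk]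
      exact GD_anti _ _ (fun j => (Ur_comm _ _ _ _).pow_right _)
        (fun j => ((Ur_comm _ _ _ _).pow_pow _ _).smul_left _) (Ur_mul_pow p _ _)
    · simp [hB' k hk]
  · by_cases hk : k < n
    · rw [hB k hk, ← Matrix.mul_kronecker_mul, Fer.e2, Matrix.kronecker_zero]
    · simp [hB' k hk]
  · by_cases hk : k < n
    · rw [hB k hk, kron_map, ← RingHom.mapMatrix_apply, map_pow, Ur_map]
      congr 1
      exact Matrix.ext fun s t => (kill K (A j)).commutes _
    · simp [hB' k hk]
  · rw [DD_map, DD_map, DD, DD, hB k hk, dif_pos hk, ← Matrix.smul_kronecker]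
    have := GD_update (F.map f) (a := Ur P c)
      (b := fun i => (kill K (A (k + 1)) ∘ fun i => (X (ν i) : P)) i • Ur P c i ^ (p - 1))
      ⟨k, hk⟩ ⟨k, hk⟩ 0 ((X (ν ⟨k, hk⟩) : P) • Ur P c ⟨k, hk⟩ ^ (p - 1))
    rw [add_zero, update_eq_self, Matrix.zero_kronecker, zero_add] at this
    rw [← this]
    congr 1
    funext i
    simp only [Function.comp_apply]
    by_cases hi : i = ⟨k, hk⟩
    · rw [hi, update_self, kill_neg (by simp [hA]), kill_pos (by simp [hA]), zero_smul, zero_add]
    · rw [update_of_ne hi]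
      have : i.1 ≠ k := fun h => hi (Fin.ext h)
      by_cases h1 : i.1 < k
      · rw [kill_pos ((hA _ _).2 h1), kill_pos ((hA _ _).2 (by omega))]
      · rw [kill_neg (by rwa [hA]), kill_neg (by rw [hA]; omega)]
  · exact AlgHom.congr_fun (φ₁ := kill K (A 0)) (φ₂ := AlgHom.id _ _)
      (algHom_ext fun t => kill_neg fun ⟨_, _, h⟩ => by omega) x
  · exact kill_kill (fun t => ⟨Or.inr, fun h => h.elim (mono k t) id⟩) x
  · exact kill_kill (fun t => ⟨Or.inl, fun h => h.elim id (mono k t)⟩) x
  · exact kill_kill (fun t => or_self_iff.symm) x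
  · rw [dif_pos hk]; exact kill_neg (by simp [hA])
  · rw [dif_pos hk]; exact kill_pos (by simp [hA])
  · rw [dif_pos hk]
    refine kill_dvd (fun t => ⟨?_, fun h => h.elim (mono k t) ?_⟩) x
    · rintro ⟨i, h1, h2⟩
      by_cases h3 : i.1 < k
      · exact Or.inl ⟨i, h1, h3⟩
      · exact Or.inr (by rw [← h1]; congr 1; exact Fin.ext (by simp only; omega))
    · intro h5
      rw [h5, hA]; simp
  · rw [dif_pos hk]; exact X_ne_zero _
  · by_cases hk : k < n
    · rw [hB k hk]
      exact lv_kron F p ((Ur_deg c _).pow (p - 1)) ((F.map f).de _) (by omega)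
    · rw [hB' k hk]; exact MB.zero
  · have key : ∀ k ≤ n, MB (fun x : (E → Bool) × Λ => 2 * dg Finset.univ x.1 + 0 * F.cd x.2)
        (· = 2 * (p - 1) * k) (phi B k) := by
      intro k
      induction k with
      | zero => exact fun _ => MB.one (by simp)
      | succ k ih =>
        intro hk
        rw [phi, hB k hk]
        refine (ih (by omega)).mul (R' := (· = 2 * (p - 1)))
          (((Ur_deg c _).pow (p - 1)).kron2 2 0 (fun _ _ => rfl) ((F.map f).de _)
            fun a b ha _ => by omega) fun a b ha hb => ?_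
        rw [ha, hb]; push_cast; ring
    have k1 := key n le_rfl s t hs
    have k2 := lv_ge (F := F) (p := p) s
    have k3 := dg_nonneg Finset.univ t.1
    have k4 := h.le
    simp only at k1
    omega
  · rw [dif_pos hk]; exact tor z h1 h2 _

theorem HH.succ [IsAlgClosed K] (hF : HH F p) : HH F.succ p :=
  fun _ _ _ _ _ _ _ _ hν h => exact_of_torsion hν h (torsion hF hν h)

theorem exists_HH [IsAlgClosed K] (n : ℕ) :
    ∃ (Λ : Type) (_ : Fintype Λ) (_ : DecidableEq Λ) (F : Fer K n Λ), HH F p := by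
  induction n with
  | zero =>
    exact ⟨Unit, _, _, Fer.zero K, fun _ _ _ _ _ _ _ _ hν h =>
      exact_of_torsion hν h fun _ _ _ k => k.elim0⟩
  | succ n ih =>
    obtain ⟨Λ, _, _, F, hF⟩ := ih
    exact ⟨_, _, _, F.succ, hF.succ⟩

lemma kron_mulVec {A B S : Type} [CommRing S] [Fintype A] [Fintype B] (M : Matrix A A S)
    (N : Matrix B B S) (u : A → S) (v : B → S) :
    (M ⊗ₖ N) *ᵥ (fun x => u x.1 * v x.2) = fun x => (M *ᵥ u) x.1 * (N *ᵥ v) x.2 := by
  funext ⟨a, b⟩
  simp only [Matrix.mulVec, dotProduct, Fintype.sum_prod_type, Matrix.kroneckerMap_apply,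
    Finset.sum_mul_sum, mul_mul_mul_comm]

/-- No nonzero element of low degree is killed by all the forms. -/
theorem socle [IsAlgClosed K] {E : Type} [Fintype E] [DecidableEq E] {c : E → Fin n → K} {β : ℤ}
    (h : Hyp p c β) {g : (E → Bool) → K} (hg : VB (dg Finset.univ) (fun d => 2 * d < β) g)
    (h0 : ∀ i, UU Finset.univ (fun e => c e i) *ᵥ g = 0) : g = 0 := by
  obtain ⟨Λ, _, _, F, hF⟩ := exists_HH (K := K) (p := p) n
  let P := MvPolynomial (Fin n) K
  let f := algebraMap K P
  obtain ⟨v, hv⟩ := hF E c β (Fin n) id injective_id h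
    (fun x => (f ∘ g) x.1 * (Pi.single F.top 1 : Λ → P) x.2) (fun ⟨s, y⟩ hx => by
      have h1 : y = F.top := by
        by_contra h1; exact right_ne_zero_of_mul hx (Pi.single_eq_of_ne h1 _)
      have h2 := hg s fun h2 => left_ne_zero_of_mul hx (by simp [h2])
      simp only [lv, h1, F.cd_top] at h2 ⊢
      omega) (by
      rw [DD, GD, Matrix.sum_mulVec]
      refine Finset.sum_eq_zero fun i _ => ?_
      have h1 : Ur P c i *ᵥ (f ∘ g) = 0 := by
        rw [Ur, RingHom.mapMatrix_apply, ← comp_mulVec, h0]; funext s; exact map_zero _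
      have h2 : (F.map f).ep i *ᵥ (Pi.single F.top 1 : Λ → P) = 0 := by
        funext y
        rw [Matrix.mulVec_single_one]
        by_contra h3
        have := (F.map f).de i y F.top h3
        have h4 := F.cd_nonneg y
        have h5 := F.cd_top
        simp only [Fer.map] at this
        omega
      rw [Matrix.add_mulVec, kron_mulVec, kron_mulVec, h1, h2]
      funext x; simp)
  let ev : P →ₐ[K] K := aeval 0
  have h1 := congrArg (fun w => (ev : P →+* K) ∘ w) hv
  simp only [comp_mulVec] at h1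
  rw [DD_map] at h1
  funext s
  have h2 := congrFun h1 (s, F.top)
  have h3 : ∀ t, DD F p c (ev ∘ fun i => X (id i)) (s, F.top) t = 0 := by
    rintro ⟨t, y⟩
    rw [DD, GD, Matrix.sum_apply]
    refine Finset.sum_eq_zero fun i _ => ?_
    have h4 : (F.map (algebraMap K K)).io i F.top y = 0 := by
      by_contra h3
      have := (F.map (algebraMap K K)).di i F.top y h3
      have h4 := F.cd_nonneg y
      have h5 := F.cd_top
      simp only [Fer.map] at this
      omega
    have h5 : ev (X (id i)) = 0 := aeval_X _ _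
    rw [Matrix.add_apply, Matrix.kronecker_apply, Matrix.kronecker_apply, h4, Function.comp_apply,
      h5, zero_smul]
    simp
  simp only [Matrix.mulVec, dotProduct, h3, zero_mul, Finset.sum_const_zero] at h2
  simpa [f] using h2.symm

end

end Pool.Agent.MP_8e2770_co.H18
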