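import Pool.Agent.MP_8e2770_co.H18.Ind

/-!
From the socle bound to choosability: polarisation and the combinatorial Nullstellensatz.
-/

namespace Pool.Agent.MP_8e2770_co.H18

open Matrix Function MvPolynomial

noncomputable section

section Sq

variable {K : Type} [Field K] {E : Type} [Fintype E] [DecidableEq E]

/-- Squarefree exponent vector. -/
def ind (s : E → Bool) : E →₀ ℕ :=
  Finsupp.equivFunOnFinite.symm fun e => if s e = true then 1 else 0

/-- Coefficients of the squarefree monomials. -/
def sq : MvPolynomial E K →ₗ[K] (E → Bool) → K := LinearMap.pi fun s => lcoeff K (ind s)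

/-- A linear form. -/
def lin {R E : Type} [CommRing R] (A : Finset E) (c : E → R) : MvPolynomial E R :=
  ∑ e ∈ A, C (c e) * X e

lemma sq_X_mul (e : E) (G : MvPolynomial E K) : sq (X e * G) = XX K e *ᵥ sq G := by
  funext s
  rw [XX_mulVec]
  change coeff (ind s) (X e * G) = if s e = true then coeff (ind (update s e false)) G else 0
  rw [coeff_X_mul']
  by_cases h : s e = true
  · rw [if_pos h, if_pos (by simp [ind, h])]
    congr 1
    ext a
    by_cases ha : a = e
    · simp [ind, ha, h]
    · simp [ind, ha]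
  · rw [if_neg h, if_neg (by simp [ind, h])]

lemma sq_lin_mul (A : Finset E) (c : E → K) (G : MvPolynomial E K) :
    sq (lin A c * G) = UU A c *ᵥ sq G := by
  rw [lin, UU, Finset.sum_mul, map_sum, Matrix.sum_mulVec]
  refine Finset.sum_congr rfl fun e _ => ?_
  rw [mul_assoc, ← smul_eq_C_mul, map_smul, sq_X_mul, Matrix.smul_mulVec]

lemma sq_pow_mul (A : Finset E) (c : E → K) (k : ℕ) (G : MvPolynomial E K) :
    sq (lin A c ^ k * G) = UU A c ^ k *ᵥ sq G := by
  induction k with
  | zero => simp
  | succ k ih => rw [pow_succ', mul_assoc, sq_lin_mul, ih, Matrix.mulVec_mulVec, pow_succ']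

variable {p n : ℕ} [hp : Fact p.Prime] [CharP K p] [IsAlgClosed K]

theorem norm_ne_zero {c : E → Fin n → K} (h : Hyp p c (2 * (p - 1) * n)) :
    sq (∏ i, lin Finset.univ (fun e => c e i) ^ (p - 1)) ≠ 0 := by
  have pc : ((p - 1 : ℕ) : ℤ) = p - 1 := Nat.cast_sub hp.out.one_le
  have key : ∀ t ≤ (p - 1) * n, ∃ a : Fin n → ℕ, (∀ i, a i ≤ p - 1) ∧ ∑ i, a i = t ∧
      sq (∏ i, lin Finset.univ (fun e => c e i) ^ a i) ≠ 0 ∧
      VB (dg Finset.univ) (· = t) (sq (∏ i, lin Finset.univ (fun e => c e i) ^ a i)) := by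
    intro t
    induction t with
    | zero =>
      refine fun _ => ⟨0, fun _ => Nat.zero_le _, by simp, fun h0 => ?_, fun s hs => ?_⟩
      · have h1 := congrFun h0 fun _ => false
        have h2 : ind (fun _ : E => false) = 0 := by ext; simp [ind]
        simp [sq, h2] at h1
      · have h2 : 0 = ind s := by
          by_contra h2; exact hs (by simp [sq, coeff_one, h2])
        refine Finset.sum_eq_zero fun e _ => if_neg fun h3 => ?_
        have := DFunLike.congr_fun h2 e
        simp [ind, h3] at this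
    | succ t ih =>
      intro ht
      obtain ⟨a, a1, a2, a3, a4⟩ := ih (by omega)
      obtain ⟨i, hi⟩ : ∃ i, UU Finset.univ (fun e => c e i) *ᵥ
          sq (∏ i, lin Finset.univ (fun e => c e i) ^ a i) ≠ 0 := by
        by_contra! h0
        refine a3 (socle h (a4.mono fun d hd => ?_) h0)
        have : ((t + 1 : ℕ) : ℤ) ≤ ((p - 1) * n : ℕ) := by exact_mod_cast ht
        push_cast [pc] at this
        linarith
      have e1 : ∏ j, lin Finset.univ (fun e => c e j) ^ update a i (a i + 1) j =
          lin Finset.univ (fun e => c e i) ^ (a i + 1) *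
            ∏ j ∈ Finset.univ.erase i, lin Finset.univ (fun e => c e j) ^ a j := by
        rw [← Finset.mul_prod_erase _ _ (Finset.mem_univ i), update_self]
        congr 1
        exact Finset.prod_congr rfl fun j hj => by rw [update_of_ne (Finset.ne_of_mem_erase hj)]
      have e2 : sq (∏ j, lin Finset.univ (fun e => c e j) ^ update a i (a i + 1) j) =
          UU Finset.univ (fun e => c e i) *ᵥ
            sq (∏ i, lin Finset.univ (fun e => c e i) ^ a i) := by
        rw [e1, ← sq_lin_mul, ← Finset.mul_prod_erase _ _ (Finset.mem_univ i), pow_succ',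
          mul_assoc]
      refine ⟨update a i (a i + 1), fun j => ?_, ?_, by rwa [e2], ?_⟩
      · by_cases hj : j = i
        · rw [hj, update_self]
          by_contra h0
          have h1 : a i + 1 = p := by have := a1 i; have := hp.out.one_le; omega
          rw [← e2, e1, h1, sq_pow_mul, UU_pow_char, Matrix.zero_mulVec] at hi
          exact hi rfl
        · rw [update_of_ne hj]; exact a1 j
      · rw [Finset.sum_update_of_mem (Finset.mem_univ i), ← a2,
          ← Finset.add_sum_erase _ _ (Finset.mem_univ i), Finset.sdiff_singleton_eq_erase]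
        ring
      · rw [e2]
        exact (UU_deg (R := (· = 1)) _ fun e he _ => if_pos he).mulVec a4
          fun u v hu hv => by push_cast; omega
  obtain ⟨a, a1, a2, a3, -⟩ := key _ le_rfl
  have := (Finset.sum_eq_sum_iff_of_le (s := Finset.univ) (f := a) (g := fun _ => p - 1)
    fun i _ => a1 i).1 (by simp [a2, mul_comm])
  rwa [show a = fun _ => p - 1 from funext fun i => this i (Finset.mem_univ i)] at a3

theorem exists_coeff {E' : Type} [Fintype E'] [DecidableEq E'] (π : E' → E) {c : E → Fin n → K}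
    (h : Hyp p (fun y => c (π y)) (2 * (p - 1) * n)) :
    ∃ d : E →₀ ℕ, coeff d (∏ i, lin Finset.univ (fun e => c e i) ^ (p - 1)) ≠ 0 ∧
      ∀ e, d e ≤ (Finset.univ.filter fun y => π y = e).card := by
  let g : E → MvPolynomial E' K := fun e => lin (Finset.univ.filter fun y => π y = e) 1
  have e1 : ∀ i, aeval g (lin Finset.univ fun e => c e i) = lin Finset.univ fun y => c (π y) i := by
    intro i
    rw [lin, lin, map_sum, ← Finset.sum_fiberwise (g := π)]
    refine Finset.sum_congr rfl fun e _ => ?_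
    rw [map_mul, aeval_X, aeval_C]
    simp only [g]
    rw [lin, Finset.mul_sum]
    refine Finset.sum_congr rfl fun y hy => ?_
    rw [(Finset.mem_filter.1 hy).2]; simp
  have h1 := norm_ne_zero h
  simp only [← e1, ← map_pow, ← map_prod] at h1
  set N := ∏ i, lin Finset.univ (fun e => c e i) ^ (p - 1)
  rw [N.as_sum, map_sum, map_sum] at h1
  obtain ⟨d, hd, h2⟩ := Finset.exists_ne_zero_of_sum_ne_zero h1
  refine ⟨d, mem_support_iff.1 hd, fun e => ?_⟩
  by_contra! h3
  have h4 : g e ^ ((Finset.univ.filter fun y => π y = e).card + 1) ∣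
      aeval g (monomial d (coeff d N)) := by
    rw [aeval_monomial]
    exact ((pow_dvd_pow _ h3).trans (Finset.dvd_prod_of_mem (fun i => g i ^ d i)
      (Finsupp.mem_support_iff.2 (by omega)))).mul_left _
  obtain ⟨G, hG⟩ := h4
  rw [hG, sq_pow_mul, UU_pow_card, Matrix.zero_mulVec] at h2
  exact h2 rfl

end Sq

lemma coeff_prod_sub {R σ ι : Type} [CommRing R] (s : Finset ι) (f : ι → MvPolynomial σ R)
    (hf : ∀ i, (f i).totalDegree ≤ 1) (c : ι → R) :
    (∏ i ∈ s, (f i - C (c i))).totalDegree ≤ s.card ∧ ∀ β : σ →₀ ℕ, s.card ≤ β.degree →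
      coeff β (∏ i ∈ s, (f i - C (c i)) - ∏ i ∈ s, f i) = 0 := by
  classical
  induction s using Finset.induction_on with
  | empty => simp
  | insert a s ha ih =>
    rw [Finset.prod_insert ha, Finset.prod_insert ha, Finset.card_insert_of_notMem ha]
    refine ⟨(totalDegree_mul _ _).trans ?_, fun β hβ => ?_⟩
    · have := totalDegree_sub (f a) (C (c a))
      have := hf a
      have := ih.1
      simp only [totalDegree_C] at *
      omega
    · rw [sub_mul, sub_right_comm, ← mul_sub, coeff_sub, coeff_C_mul, coeff_mul,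
        coeff_eq_zero_of_totalDegree_lt (ih.1.trans_lt hβ), mul_zero, sub_zero]
      refine Finset.sum_eq_zero fun x hx => ?_
      by_cases h0 : coeff x.1 (f a) = 0
      · rw [h0, zero_mul]
      · have h1 : x.1.degree ≤ 1 := (le_totalDegree (mem_support_iff.2 h0)).trans (hf a)
        rw [← Finset.HasAntidiagonal.mem_antidiagonal.1 hx, map_add] at hβ
        rw [ih.2 x.2 (by omega), mul_zero]

lemma hyp_of_bases {K T : Type} [Field K] [Fintype T] {p n : ℕ} (hp : 1 ≤ p)
    (hT : 2 * (p - 1) ≤ Fintype.card T) {c : T × Fin n → Fin n → K}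
    (h : ∀ t, LinearIndependent K fun i => c (t, i)) : Hyp p c (2 * (p - 1) * n) := fun A => by
  classical
  set r := Module.finrank K (Submodule.span K (c '' {e | e ∉ A})) with hr
  have h1 : r ≤ n := (Submodule.finrank_le _).trans (Module.finrank_fin_fun K).le
  have h2 : ∀ t, n - r ≤ (Finset.univ.filter fun i => (t, i) ∈ A).card := fun t => by
    have k1 := (h t).comp (Subtype.val : {i // ¬ (t, i) ∈ A} → Fin n) Subtype.val_injective
    have k2 : Fintype.card {i // ¬ (t, i) ∈ A} ≤ r := by
      rw [← finrank_span_eq_card k1, hr]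
      refine Submodule.finrank_mono (Submodule.span_mono ?_)
      rintro _ ⟨i, rfl⟩
      exact ⟨(t, i.1), i.2, rfl⟩
    rw [Fintype.card_subtype_compl, Fintype.card_fin, Fintype.card_subtype] at k2
    omega
  have h3 : A.card = ∑ t, (Finset.univ.filter fun i => (t, i) ∈ A).card := by
    simp only [Finset.card_filter]
    rw [← Fintype.sum_prod_type' (f := fun t i => if (t, i) ∈ A then 1 else 0),
      ← Finset.card_filter]
    simp
  have h4 : 2 * (p - 1) * (n - r) ≤ A.card := by
    rw [h3]
    refine (Nat.mul_le_mul_right _ hT).trans ?_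
    simpa using Finset.sum_le_sum (s := Finset.univ) fun t _ => h2 t
  have h5 : ((2 * (p - 1) * (n - r) : ℕ) : ℤ) ≤ A.card := by exact_mod_cast h4
  push_cast [Nat.cast_sub hp, Nat.cast_sub h1] at h5
  linarith

/-- Vectors `v e` with lists `S e`: if at least `2 (p - 1)` bases can be chosen among the vectors
so that `e` is used fewer than `|S e|` times, every vector is a combination with coefficients
from the lists. -/
theorem lists {p n : ℕ} [hp : Fact p.Prime] {E T : Type} [Fintype E] [DecidableEq E] [Fintype T]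
    [DecidableEq T] (hT : 2 * (p - 1) ≤ Fintype.card T) (v : E → Fin n → ZMod p)
    (π : T × Fin n → E) (h : ∀ t, LinearIndependent (ZMod p) fun i => v (π (t, i)))
    (S : E → Finset (ZMod p))
    (hS : ∀ e, (Finset.univ.filter fun y => π y = e).card < (S e).card) (b : Fin n → ZMod p) :
    ∃ x : E → ZMod p, (∀ e, x e ∈ S e) ∧ ∀ i, ∑ e, v e i * x e = b i := by
  let K := AlgebraicClosure (ZMod p)
  let f := algebraMap (ZMod p) K
  obtain ⟨d, d1, d2⟩ := exists_coeff (p := p) π (c := fun e => f ∘ v e)
    (hyp_of_bases hp.out.one_le hT fun t => linearIndependent_algebraMap_comp_iff.2 (h t))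
  let u : Fin n → MvPolynomial E (ZMod p) := fun i => lin Finset.univ fun e => v e i
  have d3 : coeff d (∏ i, u i ^ (p - 1)) ≠ 0 := fun h0 => d1 (by
    have : (∏ i, lin Finset.univ (fun e => (f ∘ v e) i) ^ (p - 1)) =
        MvPolynomial.map f (∏ i, u i ^ (p - 1)) := by simp [u, lin]
    rw [this, coeff_map, h0, map_zero])
  have u1 : ∀ i, (u i).IsHomogeneous 1 := fun i =>
    IsHomogeneous.sum _ _ _ fun e _ => (isHomogeneous_X _ e).C_mul _
  let s : Finset (Σ _ : Fin n, ZMod p) := Finset.univ.sigma fun i => Finset.univ.erase (b i)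
  have s1 : ∏ y ∈ s, u y.1 = ∏ i, u i ^ (p - 1) := by
    rw [Finset.prod_sigma]; simp [ZMod.card]
  have s2 : d.degree = s.card := by
    by_contra h0
    have := IsHomogeneous.prod s (fun y => u y.1) (fun _ => 1) fun y _ => u1 y.1
    rw [s1, Finset.sum_const, smul_eq_mul, mul_one] at this
    exact d3 (this.coeff_eq_zero h0)
  obtain ⟨c1, c2⟩ := coeff_prod_sub s (fun y => u y.1) (fun y => (u1 y.1).totalDegree_le)
    fun y => y.2
  have c3 : coeff d (∏ y ∈ s, (u y.1 - C y.2)) ≠ 0 := by
    have := c2 d s2.ge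
    rw [coeff_sub, sub_eq_zero, s1] at this
    rwa [this]
  obtain ⟨x, x1, x2⟩ := combinatorial_nullstellensatz_exists_eval_nonzero _ d c3
    (le_antisymm (c1.trans s2.ge) (le_totalDegree (mem_support_iff.2 c3))) S
    fun e => (d2 e).trans_lt (hS e)
  refine ⟨x, x1, fun i => ?_⟩
  by_contra h0
  rw [map_prod] at x2
  refine Finset.prod_ne_zero_iff.1 x2 ⟨i, ∑ e, v e i * x e⟩ (by simpa [s] using h0) ?_
  simp [u, lin]

theorem matrices {p n m : ℕ} [hp : Fact p.Prime] (A : Fin m → Matrix (Fin n) (Fin n) (ZMod p))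
    (hA : ∀ j, IsUnit (A j).det) (a : Fin m → ℕ) (ha : 2 * (p - 1) ≤ ∑ j, a j)
    (S : Fin m → Fin n → Finset (ZMod p)) (hS : ∀ j i, a j + 1 ≤ (S j i).card)
    (b : Fin n → ZMod p) :
    ∃ x : Fin m → Fin n → ZMod p, (∀ j i, x j i ∈ S j i) ∧ ∑ j, A j *ᵥ x j = b := by
  obtain ⟨x, x1, x2⟩ := lists (T := Σ j, Fin (a j)) (E := Fin m × Fin n) (by simpa using ha)
    (fun e i => A e.1 i e.2) (fun y => (y.1.1, y.2))
    (fun t => Matrix.linearIndependent_cols_iff_isUnit.2 ((Matrix.isUnit_iff_isUnit_det _).2 (hA t.1)))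
    (fun e => S e.1 e.2) (fun ⟨j, i⟩ => lt_of_le_of_lt (by
      refine (Finset.card_le_card (t := Finset.univ.image fun r : Fin (a j) => (⟨j, r⟩, i)) ?_).trans
        (Finset.card_image_le.trans (by simp))
      rintro ⟨⟨j', r⟩, i'⟩ hy
      obtain ⟨rfl, rfl⟩ := Prod.mk.inj (Finset.mem_filter.1 hy).2
      exact Finset.mem_image_of_mem _ (Finset.mem_univ r)) (hS j i)) b
  refine ⟨fun j i => x (j, i), fun j i => x1 (j, i), funext fun i => ?_⟩
  rw [← x2 i, Fintype.sum_prod_type, Finset.sum_apply]
  rfl

end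

end Pool.Agent.MP_8e2770_co.H18
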