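import Pool.Agent.MP_8e2770_co.H18.Cx

/-!
Exactness of the split differential at a point (one-variable lemma and Kuenneth step).
-/

namespace Pool.Agent.MP_8e2770_co.H18

open Matrix Kronecker Function

noncomputable section

lemma Ex.sub {S J J' : Type} [CommRing S] [Fintype J] [Fintype J'] {l : J → ℤ} {l' : J' → ℤ}
    {b : ℤ} {M : Matrix J' J' S} (e : J ≃ J') (hl : ∀ j, l j = l' (e j)) (h : Ex l' b M) :
    Ex l b (M.submatrix e e) := by
  intro z h1 h2
  rw [Matrix.submatrix_mulVec_equiv] at h2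
  obtain ⟨v, hv⟩ := h (z ∘ e.symm)
    (fun j hj => by have := h1 _ hj; rwa [hl, e.apply_symm_apply] at this)
    (funext fun j => by simpa using congrFun h2 (e.symm j))
  refine ⟨v ∘ e, ?_⟩
  rw [Matrix.submatrix_mulVec_equiv, comp_assoc, e.self_comp_symm, comp_id, hv, comp_assoc,
    e.symm_comp_self, comp_id]

section One

variable {K : Type} [Field K] {E : Type} [Fintype E] [DecidableEq E] {p : ℕ} [hp : Fact p.Prime]
  [CharP K p]

/-- The differential in one variable. -/
def D1 (p : ℕ) (c : E → K) (a : K) : Matrix ((E → Bool) × Bool) ((E → Bool) × Bool) K :=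
  UU Finset.univ c ⊗ₖ nI K + (a • UU Finset.univ c ^ (p - 1)) ⊗ₖ nE K

lemma D1_sq (c : E → K) (a : K) : D1 p c a * D1 p c a = 0 := by
  have h1 : UU Finset.univ c * UU Finset.univ c ^ (p - 1) = 0 := by
    rw [← pow_succ', Nat.sub_add_cancel hp.out.one_le, UU_pow_char]
  have h2 : UU Finset.univ c ^ (p - 1) * UU Finset.univ c = 0 := by
    rw [← pow_succ, Nat.sub_add_cancel hp.out.one_le, UU_pow_char]
  rw [D1, add_mul, mul_add, mul_add]
  simp only [← Matrix.mul_kronecker_mul, nII, nEE, mul_smul_comm, smul_mul_assoc, h1, h2,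
    smul_zero, Matrix.kronecker_zero, Matrix.zero_kronecker, add_zero]

omit hp [CharP K p] in
lemma D1_false (c : E → K) (a : K) (v : (E → Bool) × Bool → K) (s : E → Bool) :
    (D1 p c a *ᵥ v) (s, false) = (UU Finset.univ c *ᵥ fun t => v (t, true)) s := by
  simp [D1, Matrix.mulVec, dotProduct, Fintype.sum_prod_type, nI, nE]

omit hp [CharP K p] in
lemma D1_true (c : E → K) (a : K) (v : (E → Bool) × Bool → K) (s : E → Bool) :
    (D1 p c a *ᵥ v) (s, true) = a * (UU Finset.univ c ^ (p - 1) *ᵥ fun t => v (t, false)) s := by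
  simp [D1, Matrix.mulVec, dotProduct, Fintype.sum_prod_type, nI, nE, Finset.mul_sum, mul_assoc]

lemma D1_exact (c : E → K) (hc : ∀ e, c e ≠ 0) {a : K} (ha : a ≠ 0) :
    Ex (fun x : (E → Bool) × Bool => 2 * dg Finset.univ x.1 + (p - 2) * cb x.2) (Fintype.card E)
      (D1 p c a) := by
  intro z hz h
  have p1 := hp.out.one_le
  obtain ⟨g, hg⟩ := one_var (p := p) c Finset.univ (fun e _ => hc e) 1 p1 (fun t => z (t, true))
    (fun s hs => by have := hz _ hs; simp [cb] at this ⊢; omega)
    (funext fun s => by rw [pow_one, ← D1_false (p := p) c a, h]; rfl)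
  obtain ⟨g', hg'⟩ := one_var (p := p) c Finset.univ (fun e _ => hc e) (p - 1) (by omega)
    (fun t => z (t, false))
    (fun s hs => by have := hz _ hs; simp [cb, Nat.cast_sub p1] at this ⊢; omega)
    (funext fun s => by
      have := D1_true (p := p) c a z s
      rw [h] at this
      exact (mul_eq_zero.1 this.symm).resolve_left ha)
  rw [Nat.sub_sub_self p1, pow_one] at hg'
  refine ⟨fun x => if x.2 = true then g' x.1 else a⁻¹ * g x.1, funext fun ⟨s, b⟩ => ?_⟩
  cases b
  · rw [D1_false]; exact congrFun hg' s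
  · rw [D1_true]
    have : (fun t => a⁻¹ * g t) = a⁻¹ • g := rfl
    simp only [Bool.false_eq_true, if_false, this, Matrix.mulVec_smul, hg]
    simp [ha]

end One

section Re

variable {E : Type} [Fintype E] [DecidableEq E] (q : E → Prop) [DecidablePred q]

/-- Splitting the variables into two groups. -/
abbrev rr : (E → Bool) ≃ ({e // q e} → Bool) × ({e // ¬ q e} → Bool) :=
  Equiv.piEquivPiSubtypeProd q fun _ => Bool

variable {K : Type} [Field K]

lemma XX_left (e : {e // q e}) :
    XX K e.1 = (XX K e ⊗ₖ (1 : Matrix _ _ K)).submatrix (rr q) (rr q) := by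
  ext s t
  have h : rr q (update s e false) = (update (rr q s).1 e false, (rr q s).2) := by
    refine Prod.ext (funext fun x => ?_) (funext fun x => ?_)
    · simp [update_apply, Subtype.ext_iff]
    · exact update_of_ne (fun h => x.2 (by rw [h]; exact e.2)) _ _
  have h2 : t = update s e false ↔
      (rr q t).1 = update (rr q s).1 e false ∧ (rr q s).2 = (rr q t).2 := by
    rw [← (rr q).injective.eq_iff, h, Prod.ext_iff, eq_comm (a := (rr q s).2)]
  simp only [XX, Matrix.of_apply, Matrix.submatrix_apply, Matrix.kroneckerMap_apply,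
    Matrix.one_apply, h2, ite_and, mul_ite, mul_one, mul_zero]
  change _ = ite _ (ite (s e = true) _ _) _
  split_ifs <;> rfl

lemma XX_right (e : {e // ¬ q e}) :
    XX K e.1 = ((1 : Matrix _ _ K) ⊗ₖ XX K e).submatrix (rr q) (rr q) := by
  ext s t
  have h : rr q (update s e false) = ((rr q s).1, update (rr q s).2 e false) := by
    refine Prod.ext (funext fun x => ?_) (funext fun x => ?_)
    · exact update_of_ne (fun h => e.2 (by rw [← h]; exact x.2)) _ _
    · simp [update_apply, Subtype.ext_iff]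
  have h2 : t = update s e false ↔
      (rr q s).1 = (rr q t).1 ∧ (rr q t).2 = update (rr q s).2 e false := by
    rw [← (rr q).injective.eq_iff, h, Prod.ext_iff, eq_comm (a := (rr q s).1)]
  simp only [XX, Matrix.of_apply, Matrix.submatrix_apply, Matrix.kroneckerMap_apply,
    Matrix.one_apply, h2, ite_and, ite_mul, one_mul, zero_mul]
  change _ = ite _ (ite (s e = true) _ _) _
  split_ifs <;> rfl

lemma UU_left (c : E → K) (h : ∀ e, ¬ q e → c e = 0) :
    UU Finset.univ c = (UU Finset.univ (fun e : {e // q e} => c e) ⊗ₖ (1 : Matrix _ _ K)).submatrix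
      (rr q) (rr q) := by
  rw [UU, ← Fintype.sum_subtype_add_sum_subtype q,
    Finset.sum_eq_zero (s := Finset.univ) fun (e : {e // ¬ q e}) _ => by rw [h e e.2, zero_smul],
    add_zero]
  ext s t
  simp only [XX_left q, UU, Matrix.sum_apply, Matrix.smul_apply, Matrix.submatrix_apply,
    Matrix.kroneckerMap_apply, Finset.sum_mul, smul_eq_mul, mul_assoc]

lemma UU_right (c : E → K) (h : ∀ e, q e → c e = 0) :
    UU Finset.univ c = ((1 : Matrix _ _ K) ⊗ₖ
      UU Finset.univ (fun e : {e // ¬ q e} => c e)).submatrix (rr q) (rr q) := by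
  rw [UU, ← Fintype.sum_subtype_add_sum_subtype q,
    Finset.sum_eq_zero (s := Finset.univ) fun (e : {e // q e}) _ => by rw [h e e.2, zero_smul],
    zero_add]
  ext s t
  simp only [XX_right q, UU, Matrix.sum_apply, Matrix.smul_apply, Matrix.submatrix_apply,
    Matrix.kroneckerMap_apply, Finset.mul_sum, smul_eq_mul, mul_left_comm]

omit [DecidableEq E] in
lemma dg_split (s : E → Bool) :
    dg Finset.univ s = dg Finset.univ (rr q s).1 + dg Finset.univ (rr q s).2 :=
  (Fintype.sum_subtype_add_sum_subtype q _).symm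

lemma kron_sub_pow {A B C S : Type} [CommRing S] [Fintype A] [Fintype B] [Fintype C]
    [DecidableEq A] [DecidableEq B] [DecidableEq C] (e : C ≃ A × B) (M : Matrix A A S)
    (N : Matrix B B S) (k : ℕ) :
    ((M ⊗ₖ N).submatrix e e) ^ k = ((M ^ k) ⊗ₖ (N ^ k)).submatrix e e := by
  induction k with
  | zero => simp
  | succ k ih =>
    rw [pow_succ, ih, Matrix.submatrix_mul_equiv, ← Matrix.mul_kronecker_mul, pow_succ, pow_succ]

/-- Regrouping of the index set. -/
def ee (Λ : Type) : (E → Bool) × (Bool × Λ) ≃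
    (({e // q e} → Bool) × Bool) × (({e // ¬ q e} → Bool) × Λ) :=
  ((rr q).prodCongr (Equiv.refl _)).trans (Equiv.prodProdProdComm _ _ _ _)

omit [Fintype E] [DecidableEq E] in
lemma kron_ee {Λ S : Type} [CommRing S] (M : Matrix ({e // q e} → Bool) ({e // q e} → Bool) S)
    (M' : Matrix ({e // ¬ q e} → Bool) ({e // ¬ q e} → Bool) S) (N : Matrix Bool Bool S)
    (N' : Matrix Λ Λ S) :
    (M ⊗ₖ M').submatrix (rr q) (rr q) ⊗ₖ (N ⊗ₖ N') =
      ((M ⊗ₖ N) ⊗ₖ (M' ⊗ₖ N')).submatrix (ee q Λ) (ee q Λ) := by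
  ext ⟨s, b, x⟩ ⟨t, b', x'⟩
  exact mul_mul_mul_comm _ _ _ _

end Re

variable {K : Type} [Field K] {E : Type} [Fintype E] [DecidableEq E] {n : ℕ} {Λ : Type}
  [Fintype Λ] [DecidableEq Λ] (F : Fer K n Λ) (p : ℕ) {P : Type} [CommRing P] [Algebra K P]

open Classical in
/-- The forms `u_i`, `i > 0`, restricted to the complement of the support of `u_0`. -/
def cut (c : E → Fin (n + 1) → K) (e : E) : Fin (n + 1) → K :=
  Fin.cases (c e 0) fun i => if c e 0 ≠ 0 then 0 else c e i.succ

open Classical in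
theorem split_exact [Fact p.Prime] [CharP K p] (c : E → Fin (n + 1) → K) {a : K} (ha : a ≠ 0)
    (z : Fin n → P) {β : ℤ}
    (h : Ex (lv F p) (β - Fintype.card {e // c e 0 ≠ 0})
      (DD F p (fun (e : {e // ¬ c e 0 ≠ 0}) i => c e i.succ) z)) :
    Ex (lv F.succ p) β (DD F.succ p (cut c) (Fin.cases (algebraMap K P a) z)) := by
  let q : E → Prop := fun e => c e 0 ≠ 0
  let f := algebraMap K P
  let c' : {e // q e} → K := fun e => c e 0
  let c'' : {e // ¬ q e} → Fin n → K := fun e i => c e i.succ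
  obtain ⟨H, Pm, h1, h2, h3, h4⟩ := exists_htpy (D1_sq (p := p) c' a) (D1_exact c' (fun e => e.2) ha)
  let s : Matrix (({e // ¬ q e} → Bool) × Λ) (({e // ¬ q e} → Bool) × Λ) P :=
    (1 : Matrix _ _ P) ⊗ₖ (F.map f).sg
  have k := kuenneth (L := fun x => (2 * dg Finset.univ x.1.1 + (p - 2) * cb x.1.2) + lv F p x.2)
    (fun _ _ => rfl) (D := f.mapMatrix (D1 p c' a)) (H := f.mapMatrix H) (P := f.mapMatrix Pm)
    (s := s) (by rw [← map_mul, ← map_mul, ← map_add, ← h1, map_sub, map_one])
    (by rw [← map_mul, h2, map_zero]) (by rw [← map_mul, h3, map_zero])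
    (fun a t h => h4 a t fun h0 => h (by simp [h0]))
    (by rw [← Matrix.mul_kronecker_mul, (F.map f).ss, one_mul, Matrix.one_kronecker_one])
    (by
      rw [DD, GD, Finset.sum_mul, Finset.mul_sum, ← Finset.sum_add_distrib]
      refine Finset.sum_eq_zero fun i _ => ?_
      rw [add_mul, mul_add, add_add_add_comm, kron_anti2 (Commute.one_right _),
        kron_anti2 (Commute.one_right _), (F.map f).si, (F.map f).se]
      simp) h
  rw [add_sub_cancel] at k
  have k' := k.sub (l := lv F.succ p) (ee q Λ) fun ⟨s, b, x⟩ => by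
    simp only [lv, dg_split q s]
    change _ + _ * (cb b + F.cd x) = 2 * dg _ (rr q s).1 + _ * cb b + (2 * dg _ (rr q s).2 + _ * F.cd x)
    ring
  have m1 : ∀ {A B C : Type} [Fintype A] [Fintype B] [Fintype C] [DecidableEq A] [DecidableEq B]
      [DecidableEq C] (e : C ≃ A × B) (M : Matrix A A K) (N : Matrix B B K),
      f.mapMatrix ((M ⊗ₖ N).submatrix e e) = (f.mapMatrix M ⊗ₖ f.mapMatrix N).submatrix e e :=
    fun e M N => by ext; exact map_mul f _ _
  have m2 : ∀ (M : Matrix Bool Bool K) (N : Matrix Λ Λ K),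
      (algebraMap K P).mapMatrix (M ⊗ₖ N) = f.mapMatrix M ⊗ₖ f.mapMatrix N :=
    fun M N => kron_map f M N
  have u0 : Ur P (cut c) 0 = (f.mapMatrix (UU Finset.univ c') ⊗ₖ (1 : Matrix _ _ P)).submatrix
      (rr q) (rr q) := by
    rw [Ur, UU_left q (fun e => cut c e 0) fun e he => not_not.1 he, m1, map_one]; rfl
  have u1 : ∀ i : Fin n, Ur P (cut c) i.succ = ((1 : Matrix _ _ P) ⊗ₖ Ur P c'' i).submatrix
      (rr q) (rr q) := fun i => by
    rw [Ur, UU_right q (fun e => cut c e i.succ) fun e he => if_pos he, m1, map_one, Ur]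
    congr 4
    funext e
    exact if_neg e.2
  have sm : ∀ (r : P) (M : Matrix ({e // q e} → Bool) ({e // q e} → Bool) P)
      (N : Matrix ({e // ¬ q e} → Bool) ({e // ¬ q e} → Bool) P),
      r • (M ⊗ₖ N).submatrix (rr q) (rr q) = ((r • M) ⊗ₖ N).submatrix (rr q) (rr q) :=
    fun r M N => by rw [Matrix.smul_kronecker]; rfl
  have sm' : ∀ (r : P) (M : Matrix ({e // q e} → Bool) ({e // q e} → Bool) P)
      (N : Matrix ({e // ¬ q e} → Bool) ({e // ¬ q e} → Bool) P),
      r • (M ⊗ₖ N).submatrix (rr q) (rr q) = (M ⊗ₖ (r • N)).submatrix (rr q) (rr q) :=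
    fun r M N => by rw [Matrix.kronecker_smul]; rfl
  have d1 : f.mapMatrix (D1 p c' a) = f.mapMatrix (UU Finset.univ c') ⊗ₖ f.mapMatrix (nI K) +
      (f a • f.mapMatrix (UU Finset.univ c') ^ (p - 1)) ⊗ₖ f.mapMatrix (nE K) := by
    rw [← map_pow]; ext ⟨s, b⟩ ⟨t, b'⟩; simp [D1]
  have e : DD F.succ p (cut c) (Fin.cases (f a) z) =
      (f.mapMatrix (D1 p c' a) ⊗ₖ s + (1 : Matrix _ _ P) ⊗ₖ DD F p c'' z).submatrix
        (ee q Λ) (ee q Λ) := by
    rw [DD, GD, Fin.sum_univ_succ, DD, GD, d1, Matrix.add_kronecker]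
    simp only [Fer.map, Fer.succ, Fin.cases_zero, Fin.cases_succ, m2, map_one, u0, u1,
      kron_sub_pow, one_pow]
    rw [sm]
    simp only [sm', kron_ee, Matrix.one_kronecker_one]
    ext x y
    simp only [s, Fer.map, Matrix.add_apply, Matrix.sum_apply, Matrix.submatrix_apply,
      Matrix.kroneckerMap_apply, Finset.mul_sum, mul_add]
    rfl
  rw [e]
  exact k'

omit [Fintype E] [DecidableEq E] in
open Classical in
lemma Hyp.tail [Fintype E] {c : E → Fin (n + 1) → K} {β : ℤ} (h : Hyp p c β) (hp : 1 ≤ p) :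
    Hyp p (fun (e : {e // ¬ c e 0 ≠ 0}) i => c e (Fin.succ i))
      (β - Fintype.card {e // c e 0 ≠ 0}) := fun A => by
  let f : (Fin n → K) →ₗ[K] (Fin (n + 1) → K) :=
    LinearMap.pi (Fin.cases 0 fun i => LinearMap.proj i)
  let B : Finset E := Finset.univ.filter (fun e => c e 0 ≠ 0) ∪ A.map (Embedding.subtype _)
  have h1 : B.card ≤ Fintype.card {e // c e 0 ≠ 0} + A.card := by
    refine (Finset.card_union_le _ _).trans ?_
    rw [Finset.card_map, Fintype.card_subtype]
  have h2 : Submodule.span K (c '' {e | e ∉ B}) ≤ (Submodule.span K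
      ((fun (e : {e // ¬ c e 0 ≠ 0}) i => c e (Fin.succ i)) '' {e | e ∉ A})).map f := by
    rw [Submodule.span_le]
    rintro _ ⟨e, he, rfl⟩
    have he : ¬ c e 0 ≠ 0 ∧ e ∉ A.map (Embedding.subtype _) := by
      simpa only [B, Set.mem_ofPred_eq, Finset.mem_union, Finset.mem_filter, Finset.mem_univ,
        true_and, not_or] using he
    refine ⟨_, Submodule.subset_span ⟨⟨e, he.1⟩, fun h => he.2 (Finset.mem_map_of_mem _ h), rfl⟩,
      funext fun i => ?_⟩
    refine Fin.cases ?_ (fun i => rfl) i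
    exact (not_not.1 he.1).symm
  have h3 := (Submodule.finrank_mono h2).trans (Submodule.finrank_map_le _ _)
  have h4 := h B
  have h5 : (0 : ℤ) ≤ 2 * (p - 1) := by omega
  have h6 := mul_le_mul_of_nonneg_left (Int.ofNat_le.2 h3) h5
  omega

end

end Pool.Agent.MP_8e2770_co.H18
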